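import Pool.Agent.H24HS.Even

/-!
# The conjecture of Hodge type for the products of supersingular factors and a variety
-/

set_option autoImplicit false

open CategoryTheory AlgebraicGeometry

universe u v w

namespace Pool.Agent.H24HS

open Pool.Agent.H914 Pool.Agent.H914.VarClass Pool.Agent.H914.VarClass.Obj
  Pool.Agent.H914.WeilCohomology Pool.Agent.H281R3.HT Pool.Agent.W552 Pool.Agent.TH132.A

variable {k : Type u} [Field k] {𝒱 : VarClass k} {ops : CycleOps 𝒱}
  {W : WeilCohomology.{u, v} ops}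

lemma matching_algSpan {n : ℕ} {P : Fin (n + 1) → Polarized 𝒱} {x : W.H (nest ops n P).X}
    (hx : x ∈ matchingSpan W P) : x ∈ algSpan W (nest ops n P).X := by
  induction hx using Submodule.span_induction with
  | mem x hx =>
    obtain ⟨S, hS⟩ := hx
    apply algSpan_of_AS
    induction hS with
    | one => exact AS.one
    | single _ _ hx ih => exact ((AS.of hx).map _).mul ih
    | pair _ _ _ _ hx ih => exact ((AS.of hx).map _).mul ih
  | zero => exact Submodule.zero_mem _
  | add x y _ _ hx hy => exact Submodule.add_mem _ hx hy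
  | smul c x _ hx => exact Submodule.smul_mem _ _ hx

section Triple

variable {X Y Z : 𝒱.Obj}

/-- Even classes on a product of three varieties. -/
lemma triple_even (hX : EvenAlgebraic W X) (hY : EvenAlgebraic W Y) (hZ : EvenAlgebraic W Z)
    (hXY : EvenAlgebraic W (X.prod Y)) (hXZ : EvenAlgebraic W (X.prod Z))
    (hYZ : EvenAlgebraic W (Y.prod Z)) {M : Submodule W.K (W.H (X.prod (Y.prod Z)))}
    (hM : ∀ x ∈ algSpan W X, ∀ c ∈ algSpan W (Y.prod Z),
      W.map (fst X (Y.prod Z)) x * W.map (snd X (Y.prod Z)) c ∈ M)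
    (hM' : ∀ y ∈ algSpan W Y, ∀ c ∈ algSpan W (X.prod Z),
      W.map (snd X (Y.prod Z) ≫ fst Y Z) y *
        W.map (Obj.lift (fst X (Y.prod Z)) (snd X (Y.prod Z) ≫ snd Y Z)) c ∈ M)
    (hM'' : ∀ z ∈ algSpan W Z, ∀ c ∈ algSpan W (X.prod Y),
      W.map (snd X (Y.prod Z) ≫ snd Y Z) z *
        W.map (Obj.lift (fst X (Y.prod Z)) (snd X (Y.prod Z) ≫ fst Y Z)) c ∈ M) {e : ℕ}
    {z : W.H (X.prod (Y.prod Z))} (hz : z ∈ W.gr _ (2 * e)) : z ∈ M := by
  refine prod_gr_induction (e := 2 * e) ?_ hz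
  intro i j hij x hx y hy
  have h3 : y ∈ M.comap ((LinearMap.mulLeft W.K (W.map (fst X (Y.prod Z)) x)) ∘ₗ
      (W.map (snd X (Y.prod Z))).toLinearMap) := by
    refine prod_gr_induction (e := j) ?_ hy
    intro l m hlm y hy z hz
    rw [Submodule.mem_comap]
    change W.map (fst X (Y.prod Z)) x * W.map (snd X (Y.prod Z)) (ext W y z) ∈ _
    have half : ∀ {T : 𝒱.Obj} {r : ℕ} {t : W.H T}, EvenAlgebraic W T → Even r → t ∈ W.gr T r →
        t ∈ algSpan W T := by
      rintro T r t hT ⟨s, hs⟩ ht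
      exact hT s t (by rwa [hs, ← two_mul] at ht)
    have hyz : ext W y z ∈ W.gr (Y.prod Z) (l + m) :=
      W.mul_mem (W.map_mem (fst Y Z) hy) (W.map_mem (snd Y Z) hz)
    rcases Nat.even_or_odd i with hi | hi
    · refine hM x (half hX hi hx) _ (half hYZ ?_ hyz)
      rw [hlm]
      obtain ⟨s, hs⟩ := hi
      exact ⟨e - s, by omega⟩
    · rcases Nat.even_or_odd l with hl | hl
      · have h1 : W.map (fst X (Y.prod Z)) x * W.map (snd X (Y.prod Z)) (ext W y z) =
            (-1 : W.K) ^ (i * l) • (W.map (snd X (Y.prod Z) ≫ fst Y Z) y *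
              W.map (Obj.lift (fst X (Y.prod Z)) (snd X (Y.prod Z) ≫ snd Y Z)) (ext W x z)) := by
          rw [H281R3.HT.ext, H281R3.HT.ext, map_mul, map_mul, ← W.map_comp, ← W.map_comp,
            ← W.map_comp, ← W.map_comp, Obj.lift_fst, Obj.lift_snd, ← mul_assoc, ← mul_assoc,
            W.comm (W.map_mem (fst X (Y.prod Z)) hx) (W.map_mem _ hy), smul_mul_assoc]
        rw [h1]
        refine Submodule.smul_mem _ _ (hM' y (half hY hl hy) _ (half hXZ ?_
          (W.mul_mem (W.map_mem (fst X Z) hx) (W.map_mem (snd X Z) hz))))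
        obtain ⟨s, hs⟩ := hl
        exact ⟨e - s, by omega⟩
      · have hm : Even m := by
          obtain ⟨s, hs⟩ := hi
          obtain ⟨t, ht⟩ := hl
          exact ⟨e - s - t - 1, by omega⟩
        have h1 : W.map (fst X (Y.prod Z)) x * W.map (snd X (Y.prod Z)) (ext W y z) =
            (-1 : W.K) ^ ((i + l) * m) • (W.map (snd X (Y.prod Z) ≫ snd Y Z) z *
              W.map (Obj.lift (fst X (Y.prod Z)) (snd X (Y.prod Z) ≫ fst Y Z)) (ext W x y)) := by
          rw [H281R3.HT.ext, H281R3.HT.ext, map_mul, map_mul, ← W.map_comp, ← W.map_comp,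
            ← W.map_comp, ← W.map_comp, Obj.lift_fst, Obj.lift_snd, ← mul_assoc,
            W.comm (W.mul_mem (W.map_mem (fst X (Y.prod Z)) hx) (W.map_mem _ hy))
              (W.map_mem _ hz)]
        rw [h1]
        refine Submodule.smul_mem _ _ (hM'' z (half hZ hm hz) _ (half hXY ?_
          (W.mul_mem (W.map_mem (fst X Y) hx) (W.map_mem (snd X Y) hy))))
        exact hi.add_odd hl
  exact h3

end Triple

lemma map_lift_snd {X Y Z : 𝒱.Obj} (c : W.H (Y.prod Z)) :
    W.map (Obj.lift (snd X (Y.prod Z) ≫ fst Y Z) (snd X (Y.prod Z) ≫ snd Y Z)) c =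
      W.map (snd X (Y.prod Z)) c := by
  refine W.kunneth_induction (p := fun c => W.map (Obj.lift (snd X (Y.prod Z) ≫ fst Y Z)
    (snd X (Y.prod Z) ≫ snd Y Z)) c = W.map (snd X (Y.prod Z)) c) ?_ ?_ c
  · intro a b ha hb
    rw [map_add, map_add, ha, hb]
  · intro i j a _ b _
    rw [map_mul, ← W.map_comp, ← W.map_comp, Obj.lift_fst, Obj.lift_snd, map_mul, ← W.map_comp,
      ← W.map_comp]

/-- The conjecture for the cube of the test variety. -/
theorem hodge_cube {E : Polarized 𝒱} (hD : E.X.IsCyc 1 E.D) (hHL : HardLefschetz W E.X E.D)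
    (hp : 0 < E.X.V.degCycle (divPow ops E.D E.X.dim E.X.V.fundCycle))
    (hE : EvenAlgebraic W (E.X.prod E.X))
    (hH : HodgeType W (E.prod ops E).X (E.prod ops E).D) :
    HodgeType W (E.prod ops (E.prod ops E)).X (E.prod ops (E.prod ops E)).D ∧
      EvenAlgebraic W (E.X.prod (E.X.prod E.X)) := by
  have hB := lefschetzB_of_even hD hHL hE
  have hpt : HasPoint W E.X := hasPoint_of_deg hD hp.ne'
  have hE1 := hE.snd hpt
  have hH1 := hodge_of_square hD hp hHL hB hH
  have h1 := (hodge_matching (W := W) (n := 2) (P := fun _ => E) (fun _ => hD) (fun _ => hHL)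
    (fun _ => hB) (fun _ => hH1) (fun _ _ => hH)).1
  have hpr : prj ops 2 (fun _ => E) 2 = snd E.X (E.X.prod E.X) ≫ snd E.X E.X := by
    change snd E.X (E.X.prod E.X) ≫ (snd E.X E.X ≫ 𝟙 E.X) = _
    rw [Category.comp_id]
  have key : ∀ (e : ℕ) (z : W.H (E.X.prod (E.X.prod E.X))), z ∈ W.gr _ (2 * e) →
      z ∈ (matchingSpan W (fun _ : Fin 3 => E) :
        Submodule W.K (W.H (E.X.prod (E.X.prod E.X)))) := by
    intro e z hz
    refine triple_even hE1 hE1 hE1 hE hE hE ?_ ?_ ?_ hz
    · intro x hx c hc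
      have h2 := mspan_single (P := fun _ : Fin 3 => E) (a := 0) (mspan_pair (a := 1) (b := 2)
        (mspan_one (W := W)) (by decide) (by decide) (by decide) hc) (by decide) hx
      rw [mul_one, hpr] at h2
      have h3 := mspan_le _ h2
      rw [← map_lift_snd]
      exact h3
    · intro x hx c hc
      have h2 := mspan_single (P := fun _ : Fin 3 => E) (a := 1) (mspan_pair (a := 0) (b := 2)
        (mspan_one (W := W)) (by decide) (by decide) (by decide) hc) (by decide) hx
      rw [mul_one, hpr] at h2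
      exact mspan_le _ h2
    · intro x hx c hc
      have h2 := mspan_single (P := fun _ : Fin 3 => E) (a := 2) (mspan_pair (a := 0) (b := 1)
        (mspan_one (W := W)) (by decide) (by decide) (by decide) hc) (by decide) hx
      rw [mul_one, hpr] at h2
      exact mspan_le _ h2
  refine ⟨fun j hj z hz => h1 j hj z hz (key j _ (W.cl_mem hz)), fun e z hz => ?_⟩
  exact matching_algSpan (P := fun _ : Fin 3 => E) (key e z hz)

lemma hodge_asc' {P Q R : Polarized 𝒱} (hP : P.X.IsCyc 1 P.D) (hQ : Q.X.IsCyc 1 Q.D)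
    (hR : R.X.IsCyc 1 R.D)
    (h : HodgeType W (P.prod ops (Q.prod ops R)).X (P.prod ops (Q.prod ops R)).D) :
    HodgeType W ((P.prod ops Q).prod ops R).X ((P.prod ops Q).prod ops R).D := by
  have h1 := hodge_swap hP (isCyc_prod hQ hR) h
  have h2 := hodge_asc hQ hR hP h1
  have h3 := hodge_swap hQ (isCyc_prod hR hP) h2
  have h4 := hodge_asc hR hP hQ h3
  exact hodge_swap hR (isCyc_prod hP hQ) h4

lemma hl_prod {P Q : Polarized 𝒱} (hP : P.X.IsCyc 1 P.D) (hQ : Q.X.IsCyc 1 Q.D)
    (hPL : HardLefschetz W P.X P.D) (hQL : HardLefschetz W Q.X Q.D) :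
    HardLefschetz W (P.prod ops Q).X (P.prod ops Q).D := by
  obtain ⟨f, F, -⟩ := exists_lw hP hPL
  obtain ⟨g, G, -⟩ := exists_lw hQ hQL
  exact hl_of_lw (F.prod G)

/-- The value of the form on the unit. -/
lemma bf_one_of_deg {X : 𝒱.Obj} {D : X.Cycles} {f : Module.End W.K (W.H X)}
    (tf : Lw W X D f) (hdeg : 0 < X.V.degCycle (divPow ops D X.dim X.V.fundCycle)) :
    ∃ q : ℚ, 0 < q ∧ bf W X D f 1 1 = q := by
  have hp : W.cl X (divPow ops D (X.dim - 2 * 0 + 1) X.V.fundCycle) = 0 := by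
    rw [cl_divPow, W.cl_fund]
    exact e_pow_zero tf.hD (i := 0) (by omega) (W.one_mem X)
  have h1 := tf.form_prim (j := 0) (by omega) X.V.fundCycle_mem hp
  rw [W.cl_fund] at h1
  refine ⟨_, ?_, h1⟩
  have hf : X.IsCyc 0 X.V.fundCycle := X.V.fundCycle_mem
  have hn := divPow_mem (ops := ops) tf.hD X.dim hf
  rw [zero_add] at hn
  have h3 := ops.mul_mem hf hn
  rw [zero_add] at h3
  have h4 : ((X.V.degCycle (ops.mul X.V.fundCycle (divPow ops D X.dim X.V.fundCycle)) : ℚ) :
      W.K) = ((X.V.degCycle (divPow ops D X.dim X.V.fundCycle) : ℚ) : W.K) := by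
    rw [← W.tr_cl h3, ← W.tr_cl hn, W.cl_mul, W.cl_fund, one_mul]
  have h5 := Rat.cast_injective (α := W.K) h4
  rw [pow_zero, one_mul, mul_zero, Nat.sub_zero, h5]
  exact mul_pos (by positivity) hdeg

/-- **The conjecture of Hodge type for the product implies it for the second factor.** -/
theorem hodge_of_prod' {X U : 𝒱.Obj} {D : X.Cycles} {B : U.Cycles}
    {f : Module.End W.K (W.H X)} {g : Module.End W.K (W.H U)} (tf : Lw W X D f)
    (tg : Lw W U B g) (hdeg : 0 < X.V.degCycle (divPow ops D X.dim X.V.fundCycle))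
    (hH : HodgeType W (X.prod U) (sumD ops D B)) :
    HodgeType W U B := by
  have h1 : (1 : W.H X) ≠ 0 := by
    intro h0
    have hn := divPow_mem (ops := ops) tf.hD X.dim X.V.fundCycle_mem
    rw [zero_add] at hn
    have h2 := W.tr_cl hn
    rw [← one_mul (W.cl X _), h0, zero_mul, map_zero] at h2
    exact hdeg.ne (by exact_mod_cast h2)
  intro j hj z hz hprim hz0
  have F := tf.prod tg
  set y := ops.pull (snd X U) z with hy
  have hyc : (X.prod U).IsCyc j y := ops.pull_mem _ hz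
  have hycl : W.cl (X.prod U) y = ext W (1 : W.H X) (W.cl U z) := by
    rw [hy, W.cl_pull, H281R3.HT.ext, map_one, one_mul]
  have hj' : 2 * j ≤ (X.prod U).dim := by rw [dim_prod]; omega
  have hDE : W.cl (X.prod U) (ops.pull (fst X U) D + ops.pull (snd X U) B) =
      W.map (fst X U) (W.cl X D) + W.map (snd X U) (W.cl U B) := by
    rw [map_add, W.cl_pull, W.cl_pull]
  have hyp : W.cl (X.prod U) (divPow ops (ops.pull (fst X U) D + ops.pull (snd X U) B)
      ((X.prod U).dim - 2 * j + 1) y) = 0 := by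
    rw [cl_divPow, hycl, theta_pow tg.hD hDE]
    refine Finset.sum_eq_zero fun i hi => ?_
    have hi' := Finset.mem_range.1 hi
    rw [dim_prod] at hi' ⊢
    by_cases h2 : X.dim < i
    · rw [e_pow_zero (W := W) tf.hD (i := 0) (by omega) (W.one_mem X)]
      simp [H281R3.HT.ext]
    · rw [show X.dim + U.dim - 2 * j + 1 - i = (X.dim - i) + (U.dim - 2 * j + 1) by omega,
        pow_add, Module.End.mul_apply, ← cl_divPow, hprim, map_zero]
      simp [H281R3.HT.ext]
  have hy0 : W.cl (X.prod U) y ≠ 0 := by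
    rw [hycl]
    intro h0
    exact hz0 (one_ext_inj h1 h0)
  obtain ⟨q, hq, hq'⟩ := bf_one_of_deg tf hdeg
  have h2 := F.form_prim hj' hyc hyp
  have h3 := hH j hj' y hyc hyp hy0
  rw [hycl, tf.bf_ext tg, hq', tg.form_prim hj hz hprim, ← Rat.cast_mul] at h2
  have h4 := Rat.cast_injective (α := W.K) h2
  have h5 : 0 < q * ((-1) ^ j * (((U.dim - 2 * j).factorial : ℚ)⁻¹ *
        U.V.degCycle (ops.mul z (divPow ops B (U.dim - 2 * j) z)))) := by
    rw [h4, mul_left_comm]
    exact mul_pos (by positivity) h3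
  have h6 := pos_of_mul_pos_right h5 hq.le
  rw [mul_left_comm] at h6
  exact pos_of_mul_pos_right h6 (by positivity)

/-- The conjecture for `X × U` follows from the conjecture for `E × U`. -/
theorem hodge_transfer {E X : Polarized 𝒱} (hD : E.X.IsCyc 1 E.D)
    (hHL : HardLefschetz W E.X E.D)
    (hp : 0 < E.X.V.degCycle (divPow ops E.D E.X.dim E.X.V.fundCycle))
    (hodd : ∃ i, Odd i ∧ W.gr E.X i ≠ ⊥)
    (hE : EvenAlgebraic W (E.X.prod E.X))
    (hH : HodgeType W (E.prod ops E).X (E.prod ops E).D)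
    (hXD : X.X.IsCyc 1 X.D) (hXL : HardLefschetz W X.X X.D)
    (hEX : EvenAlgebraic W (E.X.prod X.X))
    (hXH : HodgeType W (X.prod ops E).X (X.prod ops E).D) {U : Polarized 𝒱}
    (hUD : U.X.IsCyc 1 U.D) (hUL : HardLefschetz W U.X U.D)
    (hU : HodgeType W (E.prod ops U).X (E.prod ops U).D) :
    HodgeType W (X.prod ops U).X (X.prod ops U).D := by
  have hpt : HasPoint W E.X := hasPoint_of_deg hD hp.ne'
  exact hodge_of_tests (ι := Unit) (T := fun _ => E) hXD hXL
    (lefschetzB_of_even hXD hXL (evenAlgebraic_of_test hEX hEX hpt hodd)) (fun _ => hD)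
    (fun _ => hHL) (fun _ => lefschetzB_of_even hD hHL hE) hUD hUL (fun _ => hXH)
    (fun _ _ => hH) (fun _ => hU) (comesFrom_of_top (corrImage_top hEX hpt hodd) _)

/-- **The conjecture of Hodge type for the products of supersingular varieties and a variety.** -/
theorem hodge_supersingular {ι : Type w} {S : ι → Polarized 𝒱} {e : ι}
    (hD : ∀ a, (S a).X.IsCyc 1 (S a).D) (hHL : ∀ a, HardLefschetz W (S a).X (S a).D)
    (hp : 0 < (S e).X.V.degCycle (divPow ops (S e).D (S e).X.dim (S e).X.V.fundCycle))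
    (hodd : ∃ i, Odd i ∧ W.gr (S e).X i ≠ ⊥)
    (hS : ∀ a, EvenAlgebraic W ((S a).X.prod (S e).X)) {U : Polarized 𝒱}
    (hUD : U.X.IsCyc 1 U.D) (hUL : HardLefschetz W U.X U.D)
    (hUp : 0 < U.X.V.degCycle (divPow ops U.D U.X.dim U.X.V.fundCycle)) :
    (∀ Q, IsProduct ops S Q → ∀ Y, Covers W (Q.prod ops U) Y → Y.X.IsCyc 1 Y.D →
      HodgeType W Y.X Y.D) ↔
    HodgeType W ((S e).prod ops U).X ((S e).prod ops U).D ∧
      ∀ a, HodgeType W ((S a).prod ops (S e)).X ((S a).prod ops (S e)).D := by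
  constructor
  · intro h
    refine ⟨h _ (.base e) _ (covers_refl _) (isCyc_prod (hD e) hUD), fun a => ?_⟩
    have h1 := h _ (.prod (.base a) (.base e)) _ (covers_refl _)
      (isCyc_prod (isCyc_prod (hD a) (hD e)) hUD)
    have h2 := hodge_swap (isCyc_prod (hD a) (hD e)) hUD h1
    obtain ⟨f, F, -⟩ := exists_lw hUD hUL
    obtain ⟨g, G, -⟩ := exists_lw (isCyc_prod (hD a) (hD e)) (hl_prod (hD a) (hD e) (hHL a) (hHL e))
    exact hodge_of_prod' F G hUp h2
  · rintro ⟨hU, hSS⟩ Q hQ Y hY hYD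
    have hEE := hS e
    obtain ⟨hcube, hcube'⟩ := hodge_cube (hD e) (hHL e) hp hEE (hSS e)
    -- the square of the test variety
    have hsq : ∀ U : Polarized 𝒱, U.X.IsCyc 1 U.D → HardLefschetz W U.X U.D →
        HodgeType W ((S e).prod ops U).X ((S e).prod ops U).D →
        HodgeType W (((S e).prod ops (S e)).prod ops U).X
          (((S e).prod ops (S e)).prod ops U).D := by
      intro U hUD hUL hU
      exact hodge_transfer (hD e) (hHL e) hp hodd hEE (hSS e) (isCyc_prod (hD e) (hD e))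
        (hl_prod (hD e) (hD e) (hHL e) (hHL e)) hcube'
        (hodge_swap (hD e) (isCyc_prod (hD e) (hD e)) hcube) hUD hUL hU
    have key : Q.X.IsCyc 1 Q.D ∧ HardLefschetz W Q.X Q.D ∧ ∀ U : Polarized 𝒱,
        U.X.IsCyc 1 U.D → HardLefschetz W U.X U.D →
        HodgeType W ((S e).prod ops U).X ((S e).prod ops U).D →
        HodgeType W (Q.prod ops U).X (Q.prod ops U).D := by
      clear hY hU hUp hUL hUD
      induction hQ with
      | base a =>
        refine ⟨hD a, hHL a, fun U hUD hUL hU => ?_⟩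
        exact hodge_transfer (hD e) (hHL e) hp hodd hEE (hSS e) (hD a) (hHL a) (hS a).swap
          (hSS a) hUD hUL hU
      | @prod Q R _ _ hQ hR =>
        obtain ⟨hQD, hQL, hQ⟩ := hQ
        obtain ⟨hRD, hRL, hR⟩ := hR
        refine ⟨isCyc_prod hQD hRD, hl_prod hQD hRD hQL hRL, fun U hUD hUL hU => ?_⟩
        have h1 := hsq U hUD hUL hU
        have h2 := hodge_asc (hD e) (hD e) hUD h1
        have h3 := hR _ (isCyc_prod (hD e) hUD) (hl_prod (hD e) hUD (hHL e) hUL) h2
        have h4 := hodge_exch hRD (hD e) hUD h3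
        have h5 := hQ _ (isCyc_prod hRD hUD) (hl_prod hRD hUD hRL hUL) h4
        exact hodge_asc' hQD hRD hUD h5
    exact hodge_of_covers hY (isCyc_prod key.1 hUD) hYD (key.2.2 U hUD hUL hU)

end Pool.Agent.H24HS
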