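import Pool.Agent.H24HS.Spec

/-!
# Positive operators on rational structures: the two directions
-/

set_option autoImplicit false

open Polynomial Matrix

namespace Pool.Agent.H24HS

open Pool.Agent.W552

variable {K : Type*} [Field K] [CharZero K] {V : Type*} [AddCommGroup V] [Module K V]
  [Module.Finite K V] {M : V → Prop}

/-- The matrix of a self-adjoint operator on a rational structure. -/
theorem exists_mat (hM : RatSub K M) (β : V →ₗ[K] V →ₗ[K] K)
    (hrat : ∀ x y, M x → M y → ∃ q : ℚ, β x y = q) (hsymm : ∀ x y, M x → M y → β x y = β y x)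
    (hpos : ∀ x, M x → x ≠ 0 → ∃ q : ℚ, 0 < q ∧ β x x = q) (P : Module.End K V)
    (hPM : ∀ x, M x → M (P x)) (hPs : ∀ x y, M x → M y → β (P x) y = β x (P y)) :
    ∃ (N : ℕ) (e : Fin N → V) (w : Fin N → ℚ) (A : Matrix (Fin N) (Fin N) ℚ),
      (∀ k, M (e k)) ∧ (∀ k, 0 < w k) ∧
      (∀ k l, β (e k) (e l) = if k = l then (w k : K) else 0) ∧
      (∀ x, M x → ∃ r : Fin N → ℚ, x = ∑ k, (r k : K) • e k) ∧
      (∀ l, P (e l) = ∑ k, (A k l : K) • e k) ∧ (∀ k l, w k * A k l = w l * A l k) ∧
      (∀ r : Fin N → ℚ, (∑ k, (r k : K) • e k = 0) → r = 0) ∧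
      ∀ r : Fin N → ℚ, β (P (∑ k, (r k : K) • e k)) (∑ k, (r k : K) • e k) =
        ((∑ k, w k * r k * (A *ᵥ r) k : ℚ) : K) := by
  obtain ⟨N, e, w, he, hw, horth, hspan⟩ := exists_ratBasis hM β hrat hsymm hpos
  have hrep : ∀ x, M x → ∃ r : Fin N → ℚ, x = ∑ k, (r k : K) • e k := fun x hx =>
    hspan x (Submodule.subset_span hx) fun k => hrat x _ hx (he k)
  choose A' hA' using fun l => hrep _ (hPM _ (he l))
  set A : Matrix (Fin N) (Fin N) ℚ := Matrix.of fun k l => A' l k with hAdef
  have hA : ∀ l, P (e l) = ∑ k, (A k l : K) • e k := hA'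
  have hβ : ∀ (k : Fin N) (r : Fin N → K), β (e k) (∑ l, r l • e l) = r k * w k := by
    intro k r
    rw [map_sum, Finset.sum_eq_single k]
    · rw [map_smul, horth, if_pos rfl, smul_eq_mul]
    · intro l _ hl
      rw [map_smul, horth, if_neg (Ne.symm hl), smul_zero]
    · intro h0; exact absurd (Finset.mem_univ _) h0
  have hkl : ∀ k l, β (e k) (P (e l)) = ((w k * A k l : ℚ) : K) := by
    intro k l
    rw [hA, hβ k (fun m => (A m l : K)), mul_comm]
    push_cast
    rfl
  refine ⟨N, e, w, A, he, hw, horth, hrep, hA, ?_, ?_, ?_⟩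
  · intro k l
    have h1 := hkl k l
    rw [← hPs _ _ (he k) (he l), hsymm _ _ (hPM _ (he k)) (he l), hkl] at h1
    exact (Rat.cast_injective (α := K) h1).symm
  · intro r hr
    funext k
    have h1 := hβ k (fun l => (r l : K))
    rw [hr, map_zero] at h1
    have h2 : (w k : K) ≠ 0 := by exact_mod_cast (hw k).ne'
    have h3 : (r k : K) = 0 := (mul_eq_zero.1 h1.symm).resolve_right h2
    exact_mod_cast h3
  · intro r
    have h1 : P (∑ l, (r l : K) • e l) = ∑ k, (((A *ᵥ r) k : ℚ) : K) • e k := by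
      rw [map_sum]
      simp only [map_smul, hA, Finset.smul_sum]
      rw [Finset.sum_comm]
      refine Finset.sum_congr rfl fun k _ => ?_
      rw [Matrix.mulVec, dotProduct]
      push_cast
      rw [Finset.sum_smul]
      refine Finset.sum_congr rfl fun l _ => ?_
      rw [smul_smul, mul_comm]
    rw [h1, map_sum β, LinearMap.sum_apply]
    push_cast
    refine Finset.sum_congr rfl fun k _ => ?_
    rw [map_smul, LinearMap.smul_apply, hβ k (fun l => (r l : K)), smul_eq_mul]
    ring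

omit [Module.Finite K V] in
/-- Polynomials in the operator. -/
lemma aeval_mat {N : ℕ} {e : Fin N → V} {A : Matrix (Fin N) (Fin N) ℚ} {P : Module.End K V}
    (hA : ∀ l, P (e l) = ∑ k, (A k l : K) • e k) (p : ℚ[X]) (l : Fin N) :
    aeval P (p.map (algebraMap ℚ K)) (e l) = ∑ k, ((aeval A p k l : ℚ) : K) • e k := by
  have hpow : ∀ (n : ℕ) (l : Fin N), (P ^ n) (e l) = ∑ k, (((A ^ n) k l : ℚ) : K) • e k := by
    intro n
    induction n with
    | zero =>
      intro l
      rw [pow_zero, pow_zero, Module.End.one_apply, Finset.sum_eq_single l]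
      · rw [Matrix.one_apply_eq, Rat.cast_one, one_smul]
      · intro k _ hk
        rw [Matrix.one_apply_ne hk, Rat.cast_zero, zero_smul]
      · intro h0; exact absurd (Finset.mem_univ _) h0
    | succ n ih =>
      intro l
      rw [pow_succ, Module.End.mul_apply, hA, map_sum, pow_succ]
      simp only [map_smul, ih, Finset.smul_sum]
      rw [Finset.sum_comm]
      refine Finset.sum_congr rfl fun k _ => ?_
      rw [Matrix.mul_apply]
      push_cast
      rw [Finset.sum_smul]
      refine Finset.sum_congr rfl fun m _ => ?_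
      rw [smul_smul, mul_comm]
  induction p using Polynomial.induction_on' with
  | add p q hp hq =>
    rw [Polynomial.map_add, map_add, LinearMap.add_apply, hp, hq, ← Finset.sum_add_distrib]
    refine Finset.sum_congr rfl fun k _ => ?_
    rw [map_add, Matrix.add_apply, Rat.cast_add, add_smul]
  | monomial n a =>
    rw [Polynomial.map_monomial, aeval_monomial, aeval_monomial, Module.End.mul_apply, hpow,
      Module.algebraMap_end_apply, Finset.smul_sum]
    refine Finset.sum_congr rfl fun k _ => ?_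
    have hm : (algebraMap ℚ (Matrix (Fin N) (Fin N) ℚ) a * A ^ n) k l = a * (A ^ n) k l := by
      rw [Algebra.algebraMap_eq_smul_one, smul_mul_assoc, one_mul]
      rfl
    rw [smul_smul, hm, Rat.cast_mul, eq_ratCast]

/-- **A positive operator is annihilated by a rational polynomial without roots `≤ 0`.** -/
theorem exists_poly (hM : RatSub K M) (β : V →ₗ[K] V →ₗ[K] K)
    (hrat : ∀ x y, M x → M y → ∃ q : ℚ, β x y = q) (hsymm : ∀ x y, M x → M y → β x y = β y x)
    (hpos : ∀ x, M x → x ≠ 0 → ∃ q : ℚ, 0 < q ∧ β x x = q) (P : Module.End K V)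
    (hPM : ∀ x, M x → M (P x)) (hPs : ∀ x y, M x → M y → β (P x) y = β x (P y))
    (hPpos : ∀ x, M x → x ≠ 0 → ∃ q : ℚ, 0 < q ∧ β (P x) x = q) :
    ∃ p : ℚ[X], (∀ x, M x → aeval P (p.map (algebraMap ℚ K)) x = 0) ∧
      ∀ r : ℝ, r ≤ 0 → aeval r p ≠ 0 := by
  obtain ⟨N, e, w, A, he, hw, horth, hrep, hA, hs, hinj, hval⟩ :=
    exists_mat hM β hrat hsymm hpos P hPM hPs
  refine ⟨A.charpoly, ?_, ?_⟩
  · intro x hx
    obtain ⟨r, rfl⟩ := hrep x hx
    rw [map_sum]
    refine Finset.sum_eq_zero fun l _ => ?_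
    rw [map_smul, aeval_mat hA, Matrix.aeval_self_charpoly]
    simp
  · refine charpoly_no_root hw hs fun x hx => ?_
    have hne : ∑ k, (x k : K) • e k ≠ 0 := fun h0 => hx (hinj x h0)
    obtain ⟨q, hq, hq'⟩ := hPpos _ (hM.sum _ fun k _ => hM.smul _ (he k)) hne
    rw [hval] at hq'
    have := Rat.cast_injective (α := K) hq'
    rw [this]
    exact hq

/-- **A self-adjoint operator which is annihilated by a rational polynomial without roots `≤ 0`
is positive.** -/
theorem pos_of_poly (hM : RatSub K M) (β : V →ₗ[K] V →ₗ[K] K)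
    (hrat : ∀ x y, M x → M y → ∃ q : ℚ, β x y = q) (hsymm : ∀ x y, M x → M y → β x y = β y x)
    (hpos : ∀ x, M x → x ≠ 0 → ∃ q : ℚ, 0 < q ∧ β x x = q) (P : Module.End K V)
    (hPM : ∀ x, M x → M (P x)) (hPs : ∀ x y, M x → M y → β (P x) y = β x (P y)) (p : ℚ[X])
    (hp : ∀ x, M x → aeval P (p.map (algebraMap ℚ K)) x = 0)
    (hr : ∀ r : ℝ, r ≤ 0 → aeval r p ≠ 0) {x : V} (hx : M x) (hx0 : x ≠ 0) :
    ∃ q : ℚ, 0 < q ∧ β (P x) x = q := by
  obtain ⟨N, e, w, A, he, hw, horth, hrep, hA, hs, hinj, hval⟩ :=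
    exists_mat hM β hrat hsymm hpos P hPM hPs
  have hAp : aeval A p = 0 := by
    ext k l
    have h1 := hp _ (he l)
    rw [aeval_mat hA] at h1
    exact congrFun (hinj (fun k => aeval A p k l) h1) k
  obtain ⟨r, rfl⟩ := hrep x hx
  have hr0 : r ≠ 0 := by
    rintro rfl
    apply hx0
    simp
  exact ⟨_, pos_of_aeval hw hs p hAp hr r hr0, hval r⟩

end Pool.Agent.H24HS
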