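import Pool.Agent.H24HS.Pk
import Pool.Agent.H24HS.SpecK

/-!
# The Casimir operator of the algebraic correspondences to test varieties
-/

set_option autoImplicit false

open CategoryTheory AlgebraicGeometry Polynomial

universe u v

namespace Pool.Agent.H24HS

open Pool.Agent.H914 Pool.Agent.H914.VarClass Pool.Agent.H914.VarClass.Obj
  Pool.Agent.H914.WeilCohomology Pool.Agent.H281R3.HT Pool.Agent.W552 Pool.Agent.TH132.A

variable {k : Type u} [Field k] {𝒱 : VarClass k} {ops : CycleOps 𝒱}
  {W : WeilCohomology.{u, v} ops} {X Y Z U : 𝒱.Obj}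

/-- The sum of the inverse images of two divisors. -/
noncomputable abbrev sumD (ops : CycleOps 𝒱) {X U : 𝒱.Obj} (D : X.Cycles) (B : U.Cycles) :
    (X.prod U).Cycles := ops.pull (fst X U) D + ops.pull (snd X U) B

/-- All operators of the Lefschetz triple of the second factor map the class to algebraic
classes. -/
def DB (W : WeilCohomology.{u, v} ops) (X U : 𝒱.Obj) (B : U.Cycles)
    (g : Module.End W.K (W.H U)) (z : W.H (X.prod U)) : Prop :=
  ∀ T ∈ words W U B g, AS W (X.prod U) (extR W X U T z)

section

variable {D : X.Cycles} {B : U.Cycles} {f : Module.End W.K (W.H X)} {g : Module.End W.K (W.H U)}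

lemma DB.as {z : W.H (X.prod U)} (h : DB W X U B g z) : AS W (X.prod U) z := by
  have := h 1 (Submonoid.one_mem _)
  rwa [map_one, Module.End.one_apply] at this

lemma db_ratSub : RatSub W.K (DB W X U B g) where
  zero := fun T _ => by rw [map_zero]; exact AS.zero
  add := fun hx hy T hT => by rw [map_add]; exact (hx T hT).add (hy T hT)
  smul := fun q _ hx T hT => by rw [map_smul]; exact (hx T hT).smul q

lemma DB.lft {z : W.H (X.prod U)} (h : DB W X U B g z) {u : W.H X →ₗ[W.K] W.H Y}
    (hu : AOp W X Y u) : DB W Y U B g (lft W U u z) := by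
  intro T hT
  rw [lft_extR]
  exact lft_AS hu (h T hT)

lemma DB.word {z : W.H (X.prod U)} (h : DB W X U B g z) {T : Module.End W.K (W.H U)}
    (hT : T ∈ words W U B g) : DB W X U B g (extR W X U T z) := by
  intro T' hT'
  rw [← Module.End.mul_apply, ← map_mul]
  exact h _ (Submonoid.mul_mem _ hT' hT)

lemma words_aop (F : Fr W X D f) {A : Module.End W.K (W.H X)} (hA : A ∈ words W X D f) :
    AOp W X X A := by
  induction hA using Submonoid.closure_induction with
  | mem T hT =>
    rcases hT with rfl | rfl
    · exact F.Lop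
    · exact F.aop
  | one => exact AOp.one
  | mul S T _ _ hS hT => exact hS.mul hT

/-- If the Lefschetz operators of the second factor are algebraic, all sums of algebraic classes
have the property. -/
lemma db_of_fr (G : Fr W U B g) {z : W.H (X.prod U)} (hz : AS W (X.prod U) z) :
    DB W X U B g z := by
  intro T hT
  have h1 : AOp W (X.prod U) (X.prod U) (extOp W (1 : Module.End W.K (W.H X)) T) :=
    AOp.one.ext (words_aop G hT)
  exact h1.apply hz

/-- The classes with the property are in the largest Lefschetz structure. -/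
lemma deep_of_db (F : Fr W X D f) (G : Lw W U B g) {z : W.H (X.prod U)}
    (h : DB W X U B g z) : Deep W (X.prod U) (sumD ops D B) (extSum W f g) z := by
  have key : ∀ T ∈ words W (X.prod U) (sumD ops D B) (extSum W f g), ∀ z : W.H (X.prod U),
      DB W X U B g z → DB W X U B g (T z) := by
    intro T hT
    induction hT using Submonoid.closure_induction with
    | mem T hT =>
      intro z hz
      rcases hT with rfl | rfl
      · have e : LinearMap.mulLeft W.K (W.cl (X.prod U) (sumD ops D B)) =
            extSum W (LinearMap.mulLeft W.K (W.cl X D)) (LinearMap.mulLeft W.K (W.cl U B)) :=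
          mulLeft_prod G.hD
        rw [e, extSum, LinearMap.add_apply]
        refine db_ratSub.add ?_ (hz.word e_words)
        rw [← lft_extL]
        exact hz.lft F.Lop
      · rw [extSum, LinearMap.add_apply]
        refine db_ratSub.add ?_ (hz.word f_words)
        rw [← lft_extL]
        exact hz.lft F.aop
    | one => exact fun z hz => hz
    | mul S T _ _ hS hT => exact fun z hz => hS _ (hT _ hz)
  exact fun T hT => (key T hT z h).as

/-- A primitive algebraic class on the product has the property. -/
lemma db_of_prim (F : Fr W X D f) (G : Lw W U B g) {z : W.H (X.prod U)} {c : ℤ}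
    (hz : AS W (X.prod U) z) (h0 : extSum W f g z = 0)
    (hc : extSum W (wt (W.isInternal X) X.dim) (wt (W.isInternal U) U.dim) z =
      (c : W.K) • z) : DB W X U B g z := by
  have tf : Lw W X D f := ⟨F.hD, F.sl2⟩
  have hP : ∀ T ∈ words W U B g, ∀ w ∈ orb W D B f z, extR W X U T w ∈ orb W D B f z := by
    intro T hT
    induction hT using Submonoid.closure_induction with
    | mem T hT =>
      rcases hT with rfl | rfl
      · exact fun w hw => orb_e hw
      · exact fun w hw => orb_f tf G h0 hc hw
    | one =>
      intro w hw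
      rwa [map_one, Module.End.one_apply]
    | mul S T _ _ hS' hT' =>
      intro w hw
      rw [map_mul, Module.End.mul_apply]
      exact hS' _ (hT' _ hw)
  have hzP : z ∈ orb W D B f z := by
    refine AddSubmonoid.subset_closure ⟨1, Submonoid.one_mem _, 0, 1, ?_⟩
    rw [pow_zero, map_one, Module.End.one_apply, Module.End.one_apply, Rat.cast_one, one_smul]
  have hAS : ∀ w ∈ orb W D B f z, AS W (X.prod U) w := by
    intro w hw
    induction hw using AddSubmonoid.closure_induction with
    | mem w hw =>
      obtain ⟨A, hA, s, q, rfl⟩ := hw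
      refine AS.smul q ?_
      rw [← lft_extL]
      refine lft_AS (words_aop F hA) ?_
      induction s with
      | zero => exact hz
      | succ s ih => rw [pow_succ', Module.End.mul_apply]; exact extR_e_AS G.hD ih
    | zero => exact AS.zero
    | add x y _ _ hx hy => exact hx.add hy
  exact fun T hT => hAS _ (hP T hT _ hzP)

end

/-- Finitely many algebraic operators which span all. -/
lemma exists_ops (W : WeilCohomology.{u, v} ops) (X Y : 𝒱.Obj) :
    ∃ (N : ℕ) (ε : Fin N → (W.H X →ₗ[W.K] W.H Y)), (∀ i, AOp W X Y (ε i)) ∧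
      ∀ u, AOp W X Y u → u ∈ Submodule.span W.K (Set.range ε) := by
  obtain ⟨S, hSA, hSspan, hSli⟩ := exists_linearIndependent W.K {u | AOp W X Y u}
  have hfin : S.Finite := hSli.setFinite
  have := hfin.fintype
  let e := Fintype.equivFin S
  refine ⟨Fintype.card S, fun i => (e.symm i : W.H X →ₗ[W.K] W.H Y),
    fun i => hSA (e.symm i).2, fun u hu => ?_⟩
  have h1 : u ∈ Submodule.span W.K S := by
    rw [hSspan]
    exact Submodule.subset_span hu
  refine Submodule.span_mono ?_ h1
  intro x hx
  exact ⟨e ⟨x, hx⟩, by simp⟩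

/-- The aeval of the operator on the product. -/
lemma aeval_lft (P : Module.End W.K (W.H X)) (p : W.K[X]) :
    aeval (lft W U P) p = lft W U (aeval P p) := by
  have hpow : ∀ n : ℕ, (lft W U P) ^ n = lft W U (P ^ n) := by
    intro n
    rw [lft_extL, lft_extL, map_pow]
  induction p using Polynomial.induction_on' with
  | add p q hp hq => rw [map_add, map_add, hp, hq, lft_add]
  | monomial n a =>
    rw [aeval_monomial, aeval_monomial, hpow, Algebra.algebraMap_eq_smul_one,
      Algebra.algebraMap_eq_smul_one, smul_mul_assoc, one_mul, smul_mul_assoc, one_mul, lft_smul]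

/-- The properties of the Casimir operator. -/
structure IsCas (W : WeilCohomology.{u, v} ops) (S : Polarized 𝒱) {ι : Type*}
    (T : ι → Polarized 𝒱) (f : Module.End W.K (W.H S.X)) (P : Module.End W.K (W.H S.X)) :
    Prop where
  aop : AOp W S.X S.X P
  self : ∀ a b, bf W S.X S.D f (P a) b = bf W S.X S.D f a (P b)
  pos : ∀ (U : 𝒱.Obj) (B : U.Cycles) (g : Module.End W.K (W.H U)), Lw W U B g →
    (∀ i, HodgeType W ((T i).X.prod U) (sumD ops (T i).D B)) → ∀ y, DB W S.X U B g y →
      ∃ q : ℚ, 0 ≤ q ∧ (q = 0 → ∀ i, ∀ u, AOp W (T i).X S.X u → ∀ x,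
        bf W (S.X.prod U) (sumD ops S.D B) (extSum W f g) (lft W U u x) y = 0) ∧
      (q = 0 → lft W U P y = 0) ∧
      bf W (S.X.prod U) (sumD ops S.D B) (extSum W f g) (lft W U P y) y = q

theorem exists_cas {S : Polarized 𝒱} {ι : Type*} [Finite ι] {T : ι → Polarized 𝒱}
    {f : Module.End W.K (W.H S.X)} (F : Pk W S.X S.D f)
    {h : ∀ i, Module.End W.K (W.H (T i).X)} (G : ∀ i, Pk W (T i).X (T i).D (h i)) :
    ∃ P, IsCas W S T f P := by
  classical
  have := Fintype.ofFinite ι
  choose N ε hε hspan using fun i => exists_ops W (T i).X S.X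
  choose ε' hε' hadj hadj' using fun i k => (G i).exists_adj F (hε i k)
  refine ⟨∑ i, ∑ k, ε i k ∘ₗ ε' i k, ?_, ?_, ?_⟩
  · exact AOp.ratSub.sum _ fun i _ => AOp.ratSub.sum _ fun k _ => (hε i k).comp (hε' i k)
  · intro a b
    rw [LinearMap.sum_apply, map_sum (bf W S.X S.D f), LinearMap.sum_apply, LinearMap.sum_apply,
      map_sum]
    refine Finset.sum_congr rfl fun i _ => ?_
    rw [LinearMap.sum_apply, map_sum (bf W S.X S.D f), LinearMap.sum_apply, LinearMap.sum_apply,
      map_sum]
    refine Finset.sum_congr rfl fun k _ => ?_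
    rw [LinearMap.comp_apply, LinearMap.comp_apply, hadj, ← hadj']
  · intro U B g hg hH y hy
    -- the value of each term
    have hterm : ∀ i k, bf W (S.X.prod U) (sumD ops S.D B) (extSum W f g)
        (lft W U (ε i k ∘ₗ ε' i k) y) y =
        bf W ((T i).X.prod U) (sumD ops (T i).D B) (extSum W (h i) g) (lft W U (ε' i k) y)
          (lft W U (ε' i k) y) := by
      intro i k
      rw [lft_comp, LinearMap.comp_apply]
      exact bf_lft (G i).lw F.lw hg (hadj i k) _ _
    have hval : ∀ i k, ∃ q : ℚ, 0 ≤ q ∧ (q = 0 → lft W U (ε' i k) y = 0) ∧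
        bf W ((T i).X.prod U) (sumD ops (T i).D B) (extSum W (h i) g) (lft W U (ε' i k) y)
          (lft W U (ε' i k) y) = q := by
      intro i k
      by_cases h0 : lft W U (ε' i k) y = 0
      · exact ⟨0, le_rfl, fun _ => h0, by rw [h0]; simp⟩
      · have F' : Lw W ((T i).X.prod U) (sumD ops (T i).D B) (extSum W (h i) g) :=
          (G i).lw.prod hg
        obtain ⟨q, hq, hq'⟩ := F'.bf_pos (isHom_of_lw F') (hH i)
          (deep_of_db (G i).fr hg (hy.lft (hε' i k))) h0
        exact ⟨q, hq.le, fun h => absurd h hq.ne', hq'⟩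
    choose q hq0 hq1 hq2 using hval
    have hz : (∑ i, ∑ k, q i k = 0) → ∀ i k, lft W U (ε' i k) y = 0 := by
      intro h0 i k
      have h1 := (Finset.sum_eq_zero_iff_of_nonneg fun i _ =>
        Finset.sum_nonneg fun k _ => hq0 i k).1 h0 i (Finset.mem_univ _)
      exact hq1 i k ((Finset.sum_eq_zero_iff_of_nonneg fun k _ => hq0 i k).1 h1 k
        (Finset.mem_univ _))
    refine ⟨∑ i, ∑ k, q i k, Finset.sum_nonneg fun i _ => Finset.sum_nonneg fun k _ => hq0 i k,
      ?_, ?_, ?_⟩
    · intro h0 i u hu x
      refine Submodule.span_induction (p := fun u _ => bf W (S.X.prod U) (sumD ops S.D B)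
        (extSum W f g) (lft W U u x) y = 0) ?_ ?_ ?_ ?_ (hspan i u hu)
      · rintro _ ⟨k, rfl⟩
        rw [bf_lft (G i).lw F.lw hg (hadj i k), hz h0, map_zero]
      · rw [lft_zero, LinearMap.zero_apply, map_zero, LinearMap.zero_apply]
      · intro u u' _ _ h1 h2
        rw [lft_add, LinearMap.add_apply, map_add, LinearMap.add_apply, h1, h2, add_zero]
      · intro c u _ h1
        rw [lft_smul, LinearMap.smul_apply, map_smul, LinearMap.smul_apply, h1, smul_zero]
    · intro h0
      rw [lft_sum, LinearMap.sum_apply]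
      refine Finset.sum_eq_zero fun i _ => ?_
      rw [lft_sum, LinearMap.sum_apply]
      refine Finset.sum_eq_zero fun k _ => ?_
      rw [lft_comp, LinearMap.comp_apply, hz h0, map_zero]
    · rw [lft_sum, LinearMap.sum_apply, map_sum (bf W (S.X.prod U) _ _), LinearMap.sum_apply,
        Rat.cast_sum]
      refine Finset.sum_congr rfl fun i _ => ?_
      rw [lft_sum, LinearMap.sum_apply, map_sum (bf W (S.X.prod U) _ _), LinearMap.sum_apply,
        Rat.cast_sum]
      refine Finset.sum_congr rfl fun k _ => ?_
      rw [hterm, hq2]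

end Pool.Agent.H24HS
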