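import Pool.Agent.H24HS.Iso

/-!
# Varieties on which all classes of even degree are combinations of algebraic classes
-/

set_option autoImplicit false

open CategoryTheory AlgebraicGeometry

universe u v

namespace Pool.Agent.H24HS

open Pool.Agent.H914 Pool.Agent.H914.VarClass Pool.Agent.H914.VarClass.Obj
  Pool.Agent.H914.WeilCohomology Pool.Agent.H281R3.HT Pool.Agent.W552 Pool.Agent.TH132.A

variable {k : Type u} [Field k] {𝒱 : VarClass k} {ops : CycleOps 𝒱}
  {W : WeilCohomology.{u, v} ops} {X Y Z E : 𝒱.Obj}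

/-- All classes of even degree are linear combinations, with coefficients in the coefficient field
of the cohomology, of classes of algebraic cycles. -/
def EvenAlgebraic (W : WeilCohomology.{u, v} ops) (X : 𝒱.Obj) : Prop :=
  ∀ i, ∀ x ∈ W.gr X (2 * i), x ∈ algSpan W X

lemma algSpan_of_AS {x : W.H X} (hx : AS W X x) : x ∈ algSpan W X := by
  refine AS.ind (p := fun x => x ∈ algSpan W X) ?_ ?_ hx
  · intro j x hx
    exact Submodule.subset_span (Set.mem_iUnion.2 ⟨j, hx⟩)
  · intro x y hx hy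
    exact Submodule.add_mem _ hx hy

/-- Linear maps which preserve algebraic classes. -/
lemma algSpan_lin {F : W.H X →ₗ[W.K] W.H Y} (hF : ∀ x, AS W X x → AS W Y (F x)) {x : W.H X}
    (hx : x ∈ algSpan W X) : F x ∈ algSpan W Y := by
  induction hx using Submodule.span_induction with
  | mem x hx =>
    obtain ⟨j, hx⟩ := Set.mem_iUnion.1 hx
    exact algSpan_of_AS (hF x (AS.of hx))
  | zero => rw [map_zero]; exact Submodule.zero_mem _
  | add x y _ _ hx hy => rw [map_add]; exact Submodule.add_mem _ hx hy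
  | smul c x _ hx => rw [map_smul]; exact Submodule.smul_mem _ _ hx

lemma algSpan_map (g : X ⟶ Y) {x : W.H Y} (hx : x ∈ algSpan W Y) : W.map g x ∈ algSpan W X :=
  algSpan_lin (F := (W.map g).toLinearMap) (fun _ h => h.map g) hx

lemma algSpan_mul {x y : W.H X} (hx : x ∈ algSpan W X) (hy : y ∈ algSpan W X) :
    x * y ∈ algSpan W X := by
  have h1 : ∀ x, AS W X x → x * y ∈ algSpan W X := by
    intro x hx
    exact algSpan_lin (F := LinearMap.mulLeft W.K x) (fun _ h => hx.mul h) hy
  induction hx using Submodule.span_induction with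
  | mem x hx =>
    obtain ⟨j, hx⟩ := Set.mem_iUnion.1 hx
    exact h1 x (AS.of hx)
  | zero => rw [zero_mul]; exact Submodule.zero_mem _
  | add x x' _ _ hx hx' => rw [add_mul]; exact Submodule.add_mem _ hx hx'
  | smul c x _ hx => rw [smul_mul_assoc]; exact Submodule.smul_mem _ _ hx

lemma algSpan_ext {x : W.H X} {y : W.H Y} (hx : x ∈ algSpan W X) (hy : y ∈ algSpan W Y) :
    ext W x y ∈ algSpan W (X.prod Y) :=
  algSpan_mul (algSpan_map _ hx) (algSpan_map _ hy)

lemma EvenAlgebraic.swap (h : EvenAlgebraic W (X.prod Y)) : EvenAlgebraic W (Y.prod X) := by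
  intro i x hx
  have h1 := algSpan_map (W := W) (H914.swap Y X) (h i _ (W.map_mem (H914.swap X Y) hx))
  rwa [swap_swap] at h1

/-- Algebraic classes with a positive degree. -/
def HasPoint (W : WeilCohomology.{u, v} ops) (X : 𝒱.Obj) : Prop :=
  ∃ b, AS W X b ∧ b ∈ W.gr X (2 * X.dim) ∧ W.tr X b = 1

lemma hasPoint_of_deg {D : X.Cycles} (hD : X.IsCyc 1 D)
    (hdeg : X.V.degCycle (divPow ops D X.dim X.V.fundCycle) ≠ 0) : HasPoint W X := by
  have hn := divPow_mem (ops := ops) hD X.dim X.V.fundCycle_mem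
  rw [zero_add] at hn
  set d := X.V.degCycle (divPow ops D X.dim X.V.fundCycle) with hd
  refine ⟨((d⁻¹ : ℚ) : W.K) • W.cl X (divPow ops D X.dim X.V.fundCycle), (AS.of ⟨_, hn, rfl⟩).smul _,
    Submodule.smul_mem _ _ (W.cl_mem hn), ?_⟩
  rw [map_smul, W.tr_cl hn, ← hd, smul_eq_mul, ← Rat.cast_mul, inv_mul_cancel₀ hdeg, Rat.cast_one]

lemma HasPoint.prod (hX : HasPoint W X) (hY : HasPoint W Y) : HasPoint W (X.prod Y) := by
  obtain ⟨a, ha, ha', ha1⟩ := hX
  obtain ⟨b, hb, hb', hb1⟩ := hY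
  refine ⟨ext W a b, ha.ext hb, ?_, by rw [tr_ext', ha1, hb1, one_mul]⟩
  have := W.mul_mem (W.map_mem (fst X Y) ha') (W.map_mem (snd X Y) hb')
  rw [dim_prod, mul_add]
  exact this

lemma EvenAlgebraic.snd (h : EvenAlgebraic W (X.prod Y)) (hX : HasPoint W X) :
    EvenAlgebraic W Y := by
  obtain ⟨b, hb, -, hb1⟩ := hX
  intro i x hx
  have h1 := h i _ (W.map_mem (Obj.snd X Y) hx)
  have h2 := algSpan_lin (F := W.push (Obj.snd X Y) ∘ₗ LinearMap.mulLeft W.K
    (W.map (Obj.fst X Y) b)) (fun y hy => ((hb.map _).mul hy).push _) h1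
  rwa [LinearMap.comp_apply, LinearMap.mulLeft_apply, push_snd, hb1, one_smul] at h2

lemma EvenAlgebraic.fst (h : EvenAlgebraic W (X.prod Y)) (hY : HasPoint W Y) :
    EvenAlgebraic W X := h.swap.snd hY

/-- The duality. -/
lemma exists_dual {i : ℕ} {a : W.H X} (ha : a ∈ W.gr X i) (h0 : a ≠ 0) :
    ∃ j, ∃ b ∈ W.gr X j, j + i = 2 * X.dim ∧ W.tr X (b * a) = 1 := by
  by_contra hne
  push Not at hne
  apply h0
  apply W.nondeg
  intro b
  refine gr_induction (W.isInternal X) (p := fun b => W.tr X (a * b) = 0) ?_ ?_ b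
  · intro j b hb
    by_cases hij : i + j = 2 * X.dim
    · by_contra h1
      have h2 : W.tr X (b * a) ≠ 0 := by
        rw [W.comm hb ha, map_smul, smul_eq_mul]
        exact mul_ne_zero (pow_ne_zero _ (neg_ne_zero.2 one_ne_zero)) h1
      refine hne j ((W.tr X (b * a))⁻¹ • b) (Submodule.smul_mem _ _ hb) (by omega) ?_
      rw [smul_mul_assoc, map_smul, smul_eq_mul, inv_mul_cancel₀ h2]
    · exact W.tr_eq_zero (W.mul_mem ha hb) hij
  · intro x y hx hy
    rw [mul_add, map_add, hx, hy, add_zero]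

/-- All classes of `X` come from classes of the same parity of `E`. -/
lemma exists_corr (hE : EvenAlgebraic W (E.prod X)) (hp : HasPoint W E)
    (hodd : ∃ i, Odd i ∧ W.gr E i ≠ ⊥) {i : ℕ} {x : W.H X} (hx : x ∈ W.gr X i) :
    ∃ γ ∈ algSpan W (E.prod X), ∃ r, ∃ a ∈ W.gr E r, Even (r + i) ∧ x = W.corr γ a := by
  -- a class of the same parity
  obtain ⟨r, a, ha, hr, ha0⟩ : ∃ r, ∃ a ∈ W.gr E r, Even (r + i) ∧ a ≠ 0 := by
    rcases Nat.even_or_odd i with hi | hi
    · refine ⟨0, 1, W.one_mem E, by rwa [zero_add], fun h1 => ?_⟩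
      obtain ⟨b, -, -, hb⟩ := hp
      rw [← one_mul b, h1, zero_mul, map_zero] at hb
      exact zero_ne_one hb
    · obtain ⟨r, hr, hr'⟩ := hodd
      obtain ⟨a, ha, ha0⟩ := (Submodule.ne_bot_iff _).1 hr'
      exact ⟨r, a, ha, hr.add_odd hi, ha0⟩
  obtain ⟨j, b, hb, hij, htr⟩ := exists_dual ha ha0
  have hγ : W.map (Obj.fst E X) b * W.map (Obj.snd E X) x ∈ algSpan W (E.prod X) := by
    have h1 := W.mul_mem (W.map_mem (Obj.fst E X) hb) (W.map_mem (Obj.snd E X) hx)
    have h2 : Even (j + i) := by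
      have h3 : Even (j + r) := by rw [hij]; exact even_two_mul _
      have h4 := h3.add hr
      obtain ⟨t, ht⟩ := h4
      exact ⟨t - r, by omega⟩
    obtain ⟨t, ht⟩ := h2
    rw [ht, ← two_mul] at h1
    exact hE t _ h1
  -- the value of the correspondence, up to a sign
  have h1 : W.corr (W.map (Obj.fst E X) b * W.map (Obj.snd E X) x) a =
      (-1 : W.K) ^ (i * r) • x := by
    rw [corr_apply, mul_assoc, W.comm (W.map_mem (Obj.snd E X) hx) (W.map_mem (Obj.fst E X) ha),
      mul_smul_comm, ← mul_assoc, ← map_mul, map_smul, push_snd, htr, one_smul]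
  refine ⟨_, hγ, r, (-1 : W.K) ^ (i * r) • a, Submodule.smul_mem _ _ ha, hr, ?_⟩
  rw [map_smul, h1, smul_smul, ← pow_add, ← two_mul, pow_mul, neg_one_sq, one_pow, one_smul]

/-- Correspondences with coefficients in the coefficient field preserve, when they act on one
factor, the combinations of algebraic classes. -/
lemma lft_algSpan {γ : W.H (E.prod X)} (hγ : γ ∈ algSpan W (E.prod X)) {z : W.H (E.prod Y)}
    (hz : z ∈ algSpan W (E.prod Y)) : lft W Y (W.corr γ) z ∈ algSpan W (X.prod Y) := by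
  induction hγ using Submodule.span_induction with
  | mem c hc =>
    obtain ⟨j, hc⟩ := Set.mem_iUnion.1 hc
    exact algSpan_lin (F := lft W Y (W.corr c)) (fun _ h => lft_AS ⟨c, AS.of hc, rfl⟩ h) hz
  | zero =>
    rw [corr_zero, lft_zero]
    exact Submodule.zero_mem _
  | add c d _ _ hc hd =>
    rw [corr_add, lft_add, LinearMap.add_apply]
    exact Submodule.add_mem _ hc hd
  | smul t c _ hc =>
    rw [corr_smul, lft_smul, LinearMap.smul_apply]
    exact Submodule.smul_mem _ _ hc

/-- Homogeneous elements of the cohomology of a product. -/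
lemma prod_gr_induction {M : Submodule W.K (W.H (X.prod Y))} {e : ℕ}
    (h : ∀ i j, i + j = e → ∀ a ∈ W.gr X i, ∀ b ∈ W.gr Y j, ext W a b ∈ M)
    {z : W.H (X.prod Y)} (hz : z ∈ W.gr (X.prod Y) e) : z ∈ M := by
  have key : ∀ z : W.H (X.prod Y), H914.proj (W.isInternal (X.prod Y)) e z ∈ M := by
    intro z
    refine W.kunneth_induction (p := fun z => H914.proj (W.isInternal (X.prod Y)) e z ∈ M) ?_ ?_ z
    · intro a b ha hb
      rw [map_add]
      exact Submodule.add_mem _ ha hb
    · intro i j a ha b hb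
      have h1 := W.mul_mem (W.map_mem (Obj.fst X Y) ha) (W.map_mem (Obj.snd X Y) hb)
      by_cases hij : i + j = e
      · subst hij
        rw [proj_same _ h1]
        exact h i j rfl a ha b hb
      · rw [proj_ne _ h1 hij]
        exact Submodule.zero_mem _
  have h1 := key z
  rwa [proj_same _ hz] at h1

/-- **Transitivity.** -/
lemma evenAlgebraic_of_test (hX : EvenAlgebraic W (E.prod X)) (hY : EvenAlgebraic W (E.prod Y))
    (hp : HasPoint W E) (hodd : ∃ i, Odd i ∧ W.gr E i ≠ ⊥) : EvenAlgebraic W (X.prod Y) := by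
  intro e z hz
  refine prod_gr_induction (e := 2 * e) ?_ hz
  intro i j hij x hx y hy
  obtain ⟨γ, hγ, r, a, ha, hr, rfl⟩ := exists_corr hX hp hodd hx
  rw [← lft_ext]
  apply lft_algSpan hγ
  have h1 := W.mul_mem (W.map_mem (Obj.fst E Y) ha) (W.map_mem (Obj.snd E Y) hy)
  have h2 : Even (r + j) := by
    obtain ⟨t, ht⟩ := hr
    exact ⟨t + e - i, by omega⟩
  obtain ⟨t, ht⟩ := h2
  rw [ht, ← two_mul] at h1
  exact hY t _ h1

/-- The classes of `X` are in the image of the correspondences from `E`. -/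
lemma corrImage_top (hE : EvenAlgebraic W (E.prod X)) (hp : HasPoint W E)
    (hodd : ∃ i, Odd i ∧ W.gr E i ≠ ⊥) (x : W.H X) :
    x ∈ corrImage W (fun _ : Unit => E) X := by
  refine gr_induction (W.isInternal X) (p := fun x => x ∈ corrImage W (fun _ : Unit => E) X)
    ?_ ?_ x
  · intro i x hx
    obtain ⟨γ, hγ, r, a, ha, hr, rfl⟩ := exists_corr hE hp hodd hx
    clear hx ha
    induction hγ using Submodule.span_induction with
    | mem c hc =>
      obtain ⟨j, z, hz, rfl⟩ := Set.mem_iUnion.1 hc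
      exact Submodule.subset_span ⟨(), j, z, a, hz, rfl⟩
    | zero => rw [corr_zero]; exact Submodule.zero_mem _
    | add c d _ _ hc hd => rw [corr_add]; exact Submodule.add_mem _ hc hd
    | smul t c _ hc => rw [corr_smul]; exact Submodule.smul_mem _ _ hc
  · intro a b ha hb
    exact Submodule.add_mem _ ha hb

lemma comesFrom_of_top {ι : Type*} {T : ι → 𝒱.Obj} (h : ∀ x : W.H X, x ∈ corrImage W T X)
    (U : 𝒱.Obj) : ComesFrom W T X U := by
  intro c z _
  refine W.kunneth_induction (p := fun z => z ∈ Submodule.span W.K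
    {w | ∃ a ∈ corrImage W T X, ∃ b, w = ext W a b}) ?_ ?_ (W.cl _ z)
  · intro a b ha hb
    exact Submodule.add_mem _ ha hb
  · intro i j a _ b _
    exact Submodule.subset_span ⟨a, h a, b, rfl⟩

/-- The Lefschetz standard conjecture. -/
theorem lefschetzB_of_even {D : X.Cycles} (hD : X.IsCyc 1 D) (hHL : HardLefschetz W X D)
    (h : EvenAlgebraic W (X.prod X)) : LefschetzB W X D := by
  set n := X.dim with hn
  set L : Module.End W.K (W.H X) := LinearMap.mulLeft W.K (W.cl X D) with hLdef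
  have hL : IsHom (W.gr X) 2 L := by
    simpa using rop_opAlg.hom (rop_mulLeft (W := W) hD)
  obtain ⟨Φ, hΦh, hΦ⟩ := exists_isLam (W.isInternal X) hL W_hbd hHL
  set γ : W.H (X.prod X) := (corrEquiv W X).symm Φ with hγ
  have hcγ : W.corr γ = Φ := (corrEquiv W X).apply_symm_apply Φ
  by_cases hn1 : n = 0
  · have hΦ0 : Φ = 0 := by
      apply gr_ext (W.isInternal X)
      intro i a ha
      have h2 := hΦh i a (by rw [grZ_natCast]; exact ha)
      by_cases hi : i = 0
      · subst hi
        rw [grZ_of_neg (by norm_num)] at h2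
        exact (Submodule.mem_bot _).1 h2
      · rw [W.gr_eq_bot X i (by omega)] at ha
        rw [(Submodule.mem_bot _).1 ha, map_zero, LinearMap.zero_apply]
    refine ⟨0, SmVar.IsCyc.zero _ _, ?_⟩
    rw [InducesLambda, map_zero, corr_zero, ← hΦ0]
    exact hΦ
  have hγm : γ ∈ W.gr (X.prod X) (2 * (n - 1)) := by
    apply gr_of_corr
    intro i a ha
    rw [hcγ]
    have h2 := hΦh i a (by rw [grZ_natCast]; exact ha)
    have e : (i : ℤ) + -2 = ((2 * (n - 1) : ℕ) : ℤ) + i - 2 * X.dim := by omega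
    rwa [e] at h2
  have hγs' := algSpan_gr (h (n - 1) γ hγm) hγm
  apply ((lefschetzB_tfae hD hHL).out 1 0).1
  refine ⟨γ, ?_, by rw [hcγ]; exact hΦ⟩
  rwa [show ((n - 1 : ℕ) : ℤ) = (X.dim : ℤ) - 1 by omega] at hγs'

end Pool.Agent.H24HS
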