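import Pool.Agent.H24HS.Main
import Pool.Agent.W552.FrobMain

/-!
# The conjecture of Hodge type and the isomorphisms between products
-/

set_option autoImplicit false

open CategoryTheory AlgebraicGeometry

universe u v

namespace Pool.Agent.H24HS

open Pool.Agent.H914 Pool.Agent.H914.VarClass Pool.Agent.H914.VarClass.Obj
  Pool.Agent.H914.WeilCohomology Pool.Agent.H281R3.HT Pool.Agent.W552 Pool.Agent.TH132.A

variable {k : Type u} [Field k] {𝒱 : VarClass k} {ops : CycleOps 𝒱}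
  {W : WeilCohomology.{u, v} ops} {X Y Z : 𝒱.Obj} {P Q R U : Polarized 𝒱}

/-- The push-forward of the unit along a morphism which preserves the trace. -/
lemma push_one_of_tr {g : X ⟶ Y} (h : ∀ a, W.tr X (W.map g a) = W.tr Y a) :
    W.push g 1 = 1 := by
  rw [← sub_eq_zero]
  apply W.nondeg
  intro b
  rw [sub_mul, map_sub, W.tr_push, one_mul, one_mul, h, sub_self]

lemma hodge_of_iso {P Q : Polarized 𝒱} (hP : P.X.IsCyc 1 P.D) (hQ : Q.X.IsCyc 1 Q.D)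
    (g : P.X ⟶ Q.X) (hdim : P.X.dim = Q.X.dim) (htr : ∀ a, W.tr P.X (W.map g a) = W.tr Q.X a)
    (hcl : W.cl P.X P.D = W.map g (W.cl Q.X Q.D)) (h : HodgeType W P.X P.D) :
    HodgeType W Q.X Q.D :=
  hodge_of_covers ⟨hdim, g, ⟨1, one_pos, by rw [push_one_of_tr htr, Rat.cast_one, one_smul]⟩,
    hcl⟩ hP hQ h

/-- Two additive maps which agree on the external products. -/
lemma kunneth_hom {V : Type*} [AddCommGroup V] {F G : W.H (X.prod Y) →+ V}
    (h : ∀ (i j : ℕ), ∀ a ∈ W.gr X i, ∀ b ∈ W.gr Y j, F (ext W a b) = G (ext W a b)) : F = G := by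
  ext c
  refine W.kunneth_induction (p := fun c => F c = G c) ?_ ?_ c
  · intro a b ha hb
    rw [map_add, map_add, ha, hb]
  · intro i j a ha b hb
    exact h i j a ha b hb

/-- The isomorphism `(X × Y) × Z ≅ X × (Y × Z)`. -/
noncomputable def asc (X Y Z : 𝒱.Obj) : (X.prod Y).prod Z ⟶ X.prod (Y.prod Z) :=
  Obj.lift (fst (X.prod Y) Z ≫ fst X Y) (Obj.lift (fst (X.prod Y) Z ≫ snd X Y) (snd (X.prod Y) Z))

/-- The isomorphism `X × (Y × Z) ≅ (X × Y) × Z`. -/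
noncomputable def asc' (X Y Z : 𝒱.Obj) : X.prod (Y.prod Z) ⟶ (X.prod Y).prod Z :=
  Obj.lift (Obj.lift (fst X (Y.prod Z)) (snd X (Y.prod Z) ≫ fst Y Z)) (snd X (Y.prod Z) ≫ snd Y Z)

/-- The isomorphism `X × (Y × Z) ≅ Y × (X × Z)`. -/
noncomputable def exch (X Y Z : 𝒱.Obj) : X.prod (Y.prod Z) ⟶ Y.prod (X.prod Z) :=
  Obj.lift (snd X (Y.prod Z) ≫ fst Y Z) (Obj.lift (fst X (Y.prod Z)) (snd X (Y.prod Z) ≫ snd Y Z))

lemma map_asc (a : W.H X) (b : W.H Y) (c : W.H Z) :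
    W.map (asc X Y Z) (ext W a (ext W b c)) = ext W (ext W a b) c := by
  have e1 : asc X Y Z ≫ fst X (Y.prod Z) = fst (X.prod Y) Z ≫ fst X Y := Obj.lift_fst _ _
  have e2 : asc X Y Z ≫ snd X (Y.prod Z) = Obj.lift (fst (X.prod Y) Z ≫ snd X Y)
    (snd (X.prod Y) Z) := Obj.lift_snd _ _
  rw [H281R3.HT.ext, map_mul, ← W.map_comp, ← W.map_comp, e1, e2, H281R3.HT.ext, map_mul,
    ← W.map_comp, ← W.map_comp, Obj.lift_fst, Obj.lift_snd, H281R3.HT.ext, H281R3.HT.ext, map_mul,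
    ← W.map_comp, ← W.map_comp, mul_assoc]

lemma map_asc' (a : W.H X) (b : W.H Y) (c : W.H Z) :
    W.map (asc' X Y Z) (ext W (ext W a b) c) = ext W a (ext W b c) := by
  have e1 : asc' X Y Z ≫ fst (X.prod Y) Z = Obj.lift (fst X (Y.prod Z))
    (snd X (Y.prod Z) ≫ fst Y Z) := Obj.lift_fst _ _
  have e2 : asc' X Y Z ≫ snd (X.prod Y) Z = snd X (Y.prod Z) ≫ snd Y Z := Obj.lift_snd _ _
  rw [H281R3.HT.ext, map_mul, ← W.map_comp, ← W.map_comp, e1, e2, H281R3.HT.ext, map_mul,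
    ← W.map_comp, ← W.map_comp, Obj.lift_fst, Obj.lift_snd, H281R3.HT.ext, H281R3.HT.ext, map_mul,
    ← W.map_comp, ← W.map_comp, mul_assoc]

lemma map_exch {i j : ℕ} {a : W.H X} (ha : a ∈ W.gr X i) {b : W.H Y} (hb : b ∈ W.gr Y j)
    (c : W.H Z) :
    W.map (exch X Y Z) (ext W b (ext W a c)) = (-1 : W.K) ^ (i * j) • ext W a (ext W b c) := by
  have e1 : exch X Y Z ≫ fst Y (X.prod Z) = snd X (Y.prod Z) ≫ fst Y Z := Obj.lift_fst _ _
  have e2 : exch X Y Z ≫ snd Y (X.prod Z) = Obj.lift (fst X (Y.prod Z))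
    (snd X (Y.prod Z) ≫ snd Y Z) := Obj.lift_snd _ _
  rw [H281R3.HT.ext, map_mul, ← W.map_comp, ← W.map_comp, e1, e2, H281R3.HT.ext, map_mul,
    ← W.map_comp, ← W.map_comp, Obj.lift_fst, Obj.lift_snd, H281R3.HT.ext, H281R3.HT.ext, map_mul,
    ← W.map_comp, ← W.map_comp, ← mul_assoc, ← mul_assoc, W.comm (W.map_mem _ hb)
      (W.map_mem (fst X (Y.prod Z)) ha), smul_mul_assoc, mul_comm j]

lemma tr_ext' (a : W.H X) (b : W.H Y) : W.tr (X.prod Y) (ext W a b) = W.tr X a * W.tr Y b :=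
  W.tr_prod a b

/-- Classes on a triple product. -/
lemma triple_hom {V : Type*} [AddCommGroup V] {F G : W.H (X.prod (Y.prod Z)) →+ V}
    (h : ∀ (i j l : ℕ), ∀ a ∈ W.gr X i, ∀ b ∈ W.gr Y j, ∀ c ∈ W.gr Z l,
      F (ext W a (ext W b c)) = G (ext W a (ext W b c))) : F = G := by
  apply kunneth_hom
  intro i j a ha y _
  have h2 : F.comp ((AddMonoidHom.mulLeft (W.map (fst X (Y.prod Z)) a)).comp
      (W.map (snd X (Y.prod Z))).toLinearMap.toAddMonoidHom) = G.comp ((AddMonoidHom.mulLeft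
      (W.map (fst X (Y.prod Z)) a)).comp
      (W.map (snd X (Y.prod Z))).toLinearMap.toAddMonoidHom) := by
    apply kunneth_hom
    intro j l b hb c hc
    exact h i j l a ha b hb c hc
  exact congrArg (fun F => F y) h2

lemma tr_asc (y : W.H (X.prod (Y.prod Z))) :
    W.tr _ (W.map (asc X Y Z) y) = W.tr _ y := by
  refine congrArg (fun F => F y) (triple_hom (F := (W.tr _ ∘ₗ
    (W.map (asc X Y Z)).toLinearMap).toAddMonoidHom) (G := (W.tr _).toAddMonoidHom) ?_)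
  intro i j l a _ b _ c _
  change W.tr _ (W.map (asc X Y Z) (ext W a (ext W b c))) = W.tr _ (ext W a (ext W b c))
  rw [map_asc, tr_ext', tr_ext', tr_ext', tr_ext', mul_assoc]

lemma tr_exch (y : W.H (Y.prod (X.prod Z))) :
    W.tr _ (W.map (exch X Y Z) y) = W.tr _ y := by
  refine congrArg (fun F => F y) (triple_hom (F := (W.tr _ ∘ₗ
    (W.map (exch X Y Z)).toLinearMap).toAddMonoidHom) (G := (W.tr _).toAddMonoidHom) ?_)
  intro j i l b hb a ha c _
  change W.tr _ (W.map (exch X Y Z) (ext W b (ext W a c))) = W.tr _ (ext W b (ext W a c))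
  rw [map_exch ha hb, map_smul, tr_ext', tr_ext', tr_ext', tr_ext', smul_eq_mul]
  by_cases hi : i = 2 * X.dim
  · rw [hi, mul_assoc 2, pow_mul, neg_one_sq, one_pow, one_mul]
    ring
  · rw [W.tr_eq_zero ha hi]
    ring

lemma cl_sumD (D : X.Cycles) (E : Y.Cycles) : W.cl (X.prod Y) (sumD ops D E) =
    W.map (fst X Y) (W.cl X D) + W.map (snd X Y) (W.cl Y E) := by
  rw [map_add, W.cl_pull, W.cl_pull]

lemma isCyc_prod (hP : P.X.IsCyc 1 P.D) (hQ : Q.X.IsCyc 1 Q.D) :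
    (P.prod ops Q).X.IsCyc 1 (P.prod ops Q).D :=
  SmVar.IsCyc.add (ops.pull_mem _ hP) (ops.pull_mem _ hQ)

lemma cl_asc (D : X.Cycles) (E : Y.Cycles) (F : Z.Cycles) :
    W.cl ((X.prod Y).prod Z) (sumD ops (sumD ops D E) F) =
      W.map (asc X Y Z) (W.cl (X.prod (Y.prod Z)) (sumD ops D (sumD ops E F))) := by
  have e1 : asc X Y Z ≫ fst X (Y.prod Z) = fst (X.prod Y) Z ≫ fst X Y :=
    Obj.lift_fst _ _
  have e2 : asc X Y Z ≫ snd X (Y.prod Z) =
    Obj.lift (fst (X.prod Y) Z ≫ snd X Y) (snd (X.prod Y) Z) := Obj.lift_snd _ _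
  have h1 : ∀ a, W.map (asc X Y Z) (W.map (fst X (Y.prod Z)) a) =
      W.map (fst (X.prod Y) Z) (W.map (fst X Y) a) := fun a => by
    rw [← W.map_comp, e1, W.map_comp]
  have h2 : ∀ a, W.map (asc X Y Z) (W.map (snd X (Y.prod Z)) (W.map (fst Y Z) a)) =
      W.map (fst (X.prod Y) Z) (W.map (snd X Y) a) := fun a => by
    rw [← W.map_comp, e2, ← W.map_comp, Obj.lift_fst, W.map_comp]
  have h3 : ∀ a, W.map (asc X Y Z) (W.map (snd X (Y.prod Z)) (W.map (snd Y Z) a)) =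
      W.map (snd (X.prod Y) Z) a := fun a => by
    rw [← W.map_comp, e2, ← W.map_comp, Obj.lift_snd]
  rw [cl_sumD, cl_sumD, cl_sumD, cl_sumD]
  simp only [map_add]
  rw [h1, h2, h3, add_assoc]

lemma cl_exch (D : X.Cycles) (E : Y.Cycles) (F : Z.Cycles) :
    W.cl (X.prod (Y.prod Z)) (sumD ops D (sumD ops E F)) =
      W.map (exch X Y Z) (W.cl (Y.prod (X.prod Z)) (sumD ops E (sumD ops D F))) := by
  have e1 : exch X Y Z ≫ fst Y (X.prod Z) = snd X (Y.prod Z) ≫ fst Y Z :=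
    Obj.lift_fst _ _
  have e2 : exch X Y Z ≫ snd Y (X.prod Z) = Obj.lift (fst X (Y.prod Z))
    (snd X (Y.prod Z) ≫ snd Y Z) := Obj.lift_snd _ _
  have h1 : ∀ a, W.map (exch X Y Z) (W.map (fst Y (X.prod Z)) a) =
      W.map (snd X (Y.prod Z)) (W.map (fst Y Z) a) := fun a => by
    rw [← W.map_comp, e1, W.map_comp]
  have h2 : ∀ a, W.map (exch X Y Z) (W.map (snd Y (X.prod Z)) (W.map (fst X Z) a)) =
      W.map (fst X (Y.prod Z)) a := fun a => by
    rw [← W.map_comp, e2, ← W.map_comp, Obj.lift_fst]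
  have h3 : ∀ a, W.map (exch X Y Z) (W.map (snd Y (X.prod Z)) (W.map (snd X Z) a)) =
      W.map (snd X (Y.prod Z)) (W.map (snd Y Z) a) := fun a => by
    rw [← W.map_comp, e2, ← W.map_comp, Obj.lift_snd, W.map_comp]
  rw [cl_sumD, cl_sumD, cl_sumD, cl_sumD]
  simp only [map_add]
  rw [h1, h2, h3, add_left_comm]

lemma cl_swap (D : X.Cycles) (E : Y.Cycles) :
    W.cl (X.prod Y) (sumD ops D E) = W.map (swap X Y) (W.cl (Y.prod X) (sumD ops E D)) := by
  rw [cl_sumD, cl_sumD, map_add, ← W.map_comp, ← W.map_comp, swap_fst, swap_snd, add_comm]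

lemma dim_asc (X Y Z : 𝒱.Obj) : ((X.prod Y).prod Z).dim = (X.prod (Y.prod Z)).dim := by
  rw [dim_prod, dim_prod, dim_prod, dim_prod, add_assoc]

lemma hodge_asc (hP : P.X.IsCyc 1 P.D) (hQ : Q.X.IsCyc 1 Q.D) (hR : R.X.IsCyc 1 R.D)
    (h : HodgeType W ((P.prod ops Q).prod ops R).X ((P.prod ops Q).prod ops R).D) :
    HodgeType W (P.prod ops (Q.prod ops R)).X (P.prod ops (Q.prod ops R)).D :=
  hodge_of_iso (isCyc_prod (isCyc_prod hP hQ) hR) (isCyc_prod hP (isCyc_prod hQ hR))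
    (asc P.X Q.X R.X) (dim_asc _ _ _) tr_asc (cl_asc P.D Q.D R.D) h

lemma hodge_exch (hP : P.X.IsCyc 1 P.D) (hQ : Q.X.IsCyc 1 Q.D) (hR : R.X.IsCyc 1 R.D)
    (h : HodgeType W (P.prod ops (Q.prod ops R)).X (P.prod ops (Q.prod ops R)).D) :
    HodgeType W (Q.prod ops (P.prod ops R)).X (Q.prod ops (P.prod ops R)).D :=
  hodge_of_iso (isCyc_prod hP (isCyc_prod hQ hR)) (isCyc_prod hQ (isCyc_prod hP hR))
    (exch P.X Q.X R.X) (by
      change (P.X.prod (Q.X.prod R.X)).dim = (Q.X.prod (P.X.prod R.X)).dim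
      rw [dim_prod, dim_prod, dim_prod, dim_prod]; omega) tr_exch (cl_exch P.D Q.D R.D) h

lemma hodge_swap (hP : P.X.IsCyc 1 P.D) (hQ : Q.X.IsCyc 1 Q.D)
    (h : HodgeType W (P.prod ops Q).X (P.prod ops Q).D) :
    HodgeType W (Q.prod ops P).X (Q.prod ops P).D :=
  hodge_of_iso (isCyc_prod hP hQ) (isCyc_prod hQ hP) (swap P.X Q.X) (by
      change (P.X.prod Q.X).dim = (Q.X.prod P.X).dim
      rw [dim_prod, dim_prod]; omega) tr_swap (cl_swap P.D Q.D) h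

end Pool.Agent.H24HS
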