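import Pool.Agent.H24HS.Cas

/-!
# The conjecture of Hodge type and test varieties
-/

set_option autoImplicit false

open CategoryTheory AlgebraicGeometry Polynomial

universe u v

namespace Pool.Agent.H24HS

open Pool.Agent.H914 Pool.Agent.H914.VarClass Pool.Agent.H914.VarClass.Obj
  Pool.Agent.H914.WeilCohomology Pool.Agent.H281R3.HT Pool.Agent.W552 Pool.Agent.TH132.A

variable {k : Type u} [Field k] {𝒱 : VarClass k} {ops : CycleOps 𝒱}
  {W : WeilCohomology.{u, v} ops} {X Y Z U : 𝒱.Obj}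

/-- Each class on `X × Y` is obtained from a class of the diagonal type of `Y`. -/
lemma exists_diag (W : WeilCohomology.{u, v} ops) (Y : 𝒱.Obj) :
    ∃ δ : W.H (Y.prod Y), ∀ (X : 𝒱.Obj) (c : W.H (X.prod Y)),
      lft W Y (W.corr (W.map (swap Y X) c)) δ = c := by
  obtain ⟨d, -, hd⟩ := (AOp.one : AOp W Y Y (1 : Module.End W.K (W.H Y)))
  refine ⟨W.map (swap Y Y) d, fun X c => ?_⟩
  have h1 := corr_swap_lft (W.corr (W.map (swap Y X) c)) (W.map (swap Y Y) d)
  rw [swap_swap, hd] at h1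
  have h2 : W.corr (W.map (swap Y X) (lft W Y (W.corr (W.map (swap Y X) c))
      (W.map (swap Y Y) d)) - W.map (swap Y X) c) = 0 := by
    have e : ∀ a b : W.H (Y.prod X), W.corr (a - b) = W.corr a - W.corr b := by
      intro a b
      have e1 : a - b = a + (-1 : W.K) • b := by rw [neg_one_smul, sub_eq_add_neg]
      rw [e1, corr_add, corr_smul, neg_one_smul W.K (W.corr b), ← sub_eq_add_neg]
    rw [e, h1]
    apply LinearMap.ext
    intro t
    simp
  have h3 := corr_inj h2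
  rw [← map_sub] at h3
  have h4 := congrArg (W.map (swap X Y)) h3
  rw [swap_swap, map_zero, sub_eq_zero] at h4
  exact h4

section

variable {S : Polarized 𝒱} {ι : Type*} {T : ι → Polarized 𝒱}
  {f : Module.End W.K (W.H S.X)} {h : ∀ i, Module.End W.K (W.H (T i).X)}
  {P : Module.End W.K (W.H S.X)}

/-- The Casimir operator is annihilated by a polynomial without roots `≤ 0` on the images of the
algebraic correspondences. -/
theorem exists_poly_one (hP : IsCas W S T f P) (F : Pk W S.X S.D f)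
    (G : ∀ i, Pk W (T i).X (T i).D (h i))
    (hST : ∀ i, HodgeType W (S.X.prod (T i).X) (sumD ops S.D (T i).D))
    (hTT : ∀ i j, HodgeType W ((T i).X.prod (T j).X) (sumD ops (T i).D (T j).D)) (j : ι) :
    ∃ p : ℚ[X], (∀ r : ℝ, r ≤ 0 → aeval r p ≠ 0) ∧ ∀ u, AOp W (T j).X S.X u →
      (aeval P (p.map (algebraMap ℚ W.K)) : Module.End W.K (W.H S.X)) ∘ₗ u = 0 := by
  have FG := F.fr.prod (G j).fr
  have FL := F.lw.prod (G j).lw
  obtain ⟨p, hp, hr⟩ := exists_poly (M := AS W (S.X.prod (T j).X)) AS.ratSub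
    (bf W (S.X.prod (T j).X) (sumD ops S.D (T j).D) (extSum W f (h j)))
    (fun x y hx hy => FG.bf_rat hx hy) (fun x y hx hy => FL.bf_symm (hl_of_lw FL) hx hy)
    (fun x hx hx0 => FG.bf_pos (hST j) hx hx0) (lft W (T j).X P)
    (fun x hx => lft_AS hP.aop hx) (fun x y _ _ => bf_lft F.lw F.lw (G j).lw hP.self x y) (by
      intro x hx hx0
      obtain ⟨q, hq, hq1, -, hq'⟩ := hP.pos _ _ _ (G j).lw (fun i => hTT i j) x
        (db_of_fr (G j).fr hx)
      refine ⟨q, lt_of_le_of_ne hq fun h0 => ?_, hq'⟩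
      obtain ⟨δ, hδ⟩ := exists_diag W (T j).X
      obtain ⟨r, hr, hr'⟩ := FG.bf_pos (hST j) hx hx0
      have h1 := hq1 h0.symm j (W.corr (W.map (swap (T j).X S.X) x))
        ⟨_, hx.map (swap (T j).X S.X), rfl⟩ δ
      rw [hδ S.X x, hr'] at h1
      exact hr.ne' (by exact_mod_cast h1))
  refine ⟨p, hr, ?_⟩
  rintro _ ⟨c, hc, rfl⟩
  have h1 := hp (W.map (swap S.X (T j).X) c) (hc.map _)
  rw [aeval_lft] at h1
  have h2 := corr_swap_lft (aeval P (p.map (algebraMap ℚ W.K)) : Module.End W.K (W.H S.X))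
    (W.map (swap S.X (T j).X) c)
  rw [h1, map_zero, corr_zero, swap_swap] at h2
  exact h2.symm

theorem exists_poly_all [Finite ι] (hP : IsCas W S T f P) (F : Pk W S.X S.D f)
    (G : ∀ i, Pk W (T i).X (T i).D (h i))
    (hST : ∀ i, HodgeType W (S.X.prod (T i).X) (sumD ops S.D (T i).D))
    (hTT : ∀ i j, HodgeType W ((T i).X.prod (T j).X) (sumD ops (T i).D (T j).D)) :
    ∃ p : ℚ[X], (∀ r : ℝ, r ≤ 0 → aeval r p ≠ 0) ∧ ∀ i u, AOp W (T i).X S.X u →
      (aeval P (p.map (algebraMap ℚ W.K)) : Module.End W.K (W.H S.X)) ∘ₗ u = 0 := by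
  classical
  have := Fintype.ofFinite ι
  choose p hp hp' using fun j => exists_poly_one hP F G hST hTT j
  refine ⟨∏ j, p j, ?_, ?_⟩
  · intro r hr
    rw [map_prod, Finset.prod_ne_zero_iff]
    exact fun j _ => hp j r hr
  · intro j u hu
    obtain ⟨q, hq⟩ := Finset.dvd_prod_of_mem p (Finset.mem_univ j)
    rw [hq, mul_comm, Polynomial.map_mul, map_mul]
    change (aeval P _ : Module.End W.K (W.H S.X)) ∘ₗ _ ∘ₗ u = 0
    rw [hp' j u hu, LinearMap.comp_zero]

end

/-- The subspace of the cohomology of `X` generated by the images of the algebraic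
correspondences from the varieties `T i` to `X`. -/
def corrImage (W : WeilCohomology.{u, v} ops) {ι : Type*} (T : ι → 𝒱.Obj) (X : 𝒱.Obj) :
    Submodule W.K (W.H X) :=
  Submodule.span W.K {x | ∃ (i : ι) (c : ℕ) (z : ((T i).prod X).Cycles) (a : W.H (T i)),
    ((T i).prod X).IsCyc c z ∧ x = W.corr (W.cl _ z) a}

/-- The classes of the cycles on `X × U` are combinations of external products of classes which
come from the varieties `T i` and of classes of `U`. -/
def ComesFrom (W : WeilCohomology.{u, v} ops) {ι : Type*} (T : ι → 𝒱.Obj) (X U : 𝒱.Obj) : Prop :=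
  ∀ (c : ℕ) (z : (X.prod U).Cycles), (X.prod U).IsCyc c z →
    W.cl (X.prod U) z ∈ Submodule.span W.K {w | ∃ a ∈ corrImage W T X, ∃ b, w = ext W a b}

/-- The operator which is zero on `corrImage` is zero on the classes which come from the `T i`. -/
lemma lft_zero_of {ι : Type*} {T : ι → 𝒱.Obj} {A : W.H X →ₗ[W.K] W.H Y}
    (hA : ∀ i u, AOp W (T i) X u → A ∘ₗ u = 0) {z : W.H (X.prod U)}
    (hz : z ∈ Submodule.span W.K {w | ∃ a ∈ corrImage W T X, ∃ b, w = ext W a b}) :
    lft W U A z = 0 := by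
  have h0 : ∀ a ∈ corrImage W T X, A a = 0 := by
    intro a ha
    induction ha using Submodule.span_induction with
    | mem x hx =>
      obtain ⟨i, c, z, a, hz, rfl⟩ := hx
      exact congrArg (fun F => F a) (hA i _ ⟨_, AS.of ⟨z, hz, rfl⟩, rfl⟩)
    | zero => rw [map_zero]
    | add x y _ _ hx hy => rw [map_add, hx, hy, add_zero]
    | smul c x _ hx => rw [map_smul, hx, smul_zero]
  induction hz using Submodule.span_induction with
  | mem x hx =>
    obtain ⟨a, ha, b, rfl⟩ := hx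
    rw [lft_ext, h0 a ha]
    simp [H281R3.HT.ext]
  | zero => rw [map_zero]
  | add x y _ _ hx hy => rw [map_add, hx, hy, add_zero]
  | smul c x _ hx => rw [map_smul, hx, smul_zero]

/-- Polynomials of an operator on its kernel. -/
lemma aeval_ker {V : Type*} [AddCommGroup V] [Module W.K V] {Q : Module.End W.K V} {y : V}
    (hy : Q y = 0) (p : W.K[X]) : aeval Q p y = p.coeff 0 • y := by
  conv_lhs => rw [← Polynomial.divX_mul_X_add p]
  rw [map_add, map_mul, aeval_X, LinearMap.add_apply, Module.End.mul_apply, hy, map_zero,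
    zero_add, aeval_C, Module.algebraMap_end_apply]

/-- **Positivity.** -/
theorem pos_core {S : Polarized 𝒱} {ι : Type*} [Finite ι] {T : ι → Polarized 𝒱}
    {U : Polarized 𝒱} {f : Module.End W.K (W.H S.X)}
    {h : ∀ i, Module.End W.K (W.H (T i).X)} {g : Module.End W.K (W.H U.X)}
    (F : Pk W S.X S.D f) (G : ∀ i, Pk W (T i).X (T i).D (h i)) (hU : Lw W U.X U.D g)
    (hST : ∀ i, HodgeType W (S.X.prod (T i).X) (sumD ops S.D (T i).D))
    (hTT : ∀ i j, HodgeType W ((T i).X.prod (T j).X) (sumD ops (T i).D (T j).D))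
    (hTU : ∀ i, HodgeType W ((T i).X.prod U.X) (sumD ops (T i).D U.D))
    {z : W.H (S.X.prod U.X)} (hz : DB W S.X U.X U.D g z)
    (hzT : z ∈ Submodule.span W.K {w | ∃ a ∈ corrImage W (fun i => (T i).X) S.X, ∃ b,
      w = ext W a b}) (hz0 : z ≠ 0) :
    ∃ q : ℚ, 0 < q ∧ bf W (S.X.prod U.X) (sumD ops S.D U.D) (extSum W f g) z z = q := by
  obtain ⟨P, hP⟩ := exists_cas (T := T) F G
  obtain ⟨p, hr, hp⟩ := exists_poly_all hP F G hST hTT
  set Q : Module.End W.K (W.H (S.X.prod U.X)) := lft W U.X P with hQ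
  set p' : W.K[X] := p.map (algebraMap ℚ W.K) with hp'
  set b := bf W (S.X.prod U.X) (sumD ops S.D U.D) (extSum W f g) with hb
  have FU := F.lw.prod hU
  have hpz : aeval Q p' z = 0 := by
    rw [hQ, aeval_lft]
    exact lft_zero_of hp hzT
  have hcoeff : (p'.coeff 0 : W.K) ≠ 0 := by
    rw [hp', Polynomial.coeff_map]
    intro h0
    have h1 : p.coeff 0 = 0 := by
      have := (map_eq_zero (algebraMap ℚ W.K)).1 h0
      exact this
    refine hr 0 le_rfl ?_
    rw [Polynomial.aeval_def, Polynomial.eval₂_at_zero, h1, map_zero]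
  -- the rational structure
  let M : W.H (S.X.prod U.X) → Prop := fun y => ∃ r : ℚ[X],
    y = aeval Q (r.map (algebraMap ℚ W.K)) z
  have hM : RatSub W.K M := by
    refine ⟨⟨0, by simp⟩, ?_, ?_⟩
    · rintro _ _ ⟨r, rfl⟩ ⟨s, rfl⟩
      exact ⟨r + s, by rw [Polynomial.map_add, map_add, LinearMap.add_apply]⟩
    · rintro q _ ⟨r, rfl⟩
      refine ⟨C q * r, ?_⟩
      rw [Polynomial.map_mul, map_mul, Polynomial.map_C, aeval_C, Module.End.mul_apply,
        Module.algebraMap_end_apply]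
      simp
  have hQs : ∀ x y, b (Q x) y = b x (Q y) := fun x y => bf_lft F.lw F.lw hU hP.self x y
  have hQDB : ∀ y, DB W S.X U.X U.D g y → DB W S.X U.X U.D g (Q y) := fun y hy =>
    hy.lft hP.aop
  have hQM : ∀ x, M x → M (Q x) := by
    rintro _ ⟨r, rfl⟩
    refine ⟨X * r, ?_⟩
    rw [Polynomial.map_mul, map_mul, Polynomial.map_X, aeval_X, Module.End.mul_apply]
  have hpow : ∀ n : ℕ, DB W S.X U.X U.D g ((Q ^ n) z) := by
    intro n
    induction n with
    | zero => exact hz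
    | succ n ih => rw [pow_succ', Module.End.mul_apply]; exact hQDB _ ih
  have hMDB : ∀ y, M y → DB W S.X U.X U.D g y := by
    rintro _ ⟨r, rfl⟩
    rw [Polynomial.aeval_eq_sum_range, LinearMap.sum_apply]
    refine db_ratSub.sum _ fun n _ => ?_
    rw [LinearMap.smul_apply, Polynomial.coeff_map, eq_ratCast]
    exact db_ratSub.smul _ (hpow n)
  have hMp : ∀ y, M y → aeval Q p' y = 0 := by
    rintro _ ⟨r, rfl⟩
    rw [← Module.End.mul_apply, ← map_mul, mul_comm, map_mul, Module.End.mul_apply, hpz,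
      map_zero]
  have hdeep : ∀ y, M y → Deep W (S.X.prod U.X) (sumD ops S.D U.D) (extSum W f g) y :=
    fun y hy => deep_of_db F.fr hU (hMDB y hy)
  have hβrat : ∀ x y, M x → M y → ∃ q : ℚ, (b ∘ₗ Q) x y = q := fun x y hx hy =>
    FU.bf_rat (isHom_of_lw FU) (hdeep _ (hQM x hx)) (hdeep y hy)
  have hβsymm : ∀ x y, M x → M y → (b ∘ₗ Q) x y = (b ∘ₗ Q) y x := by
    intro x y hx hy
    rw [LinearMap.comp_apply, LinearMap.comp_apply, hQs x y]
    exact FU.bf_symm (hl_of_lw FU) (hMDB x hx).as (hMDB _ (hQM y hy)).as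
  have hβpos : ∀ x, M x → x ≠ 0 → ∃ q : ℚ, 0 < q ∧ (b ∘ₗ Q) x x = q := by
    intro x hx hx0
    obtain ⟨q, hq, -, hq1, hq'⟩ := hP.pos _ _ _ hU hTU x (hMDB x hx)
    refine ⟨q, lt_of_le_of_ne hq fun h0 => ?_, hq'⟩
    have h1 := aeval_ker (W := W) (hq1 h0.symm) p'
    have h2 := hMp x hx
    rw [hQ, h1] at h2
    exact (smul_eq_zero.1 h2).elim hcoeff hx0
  -- solve `Q y = z`
  set y := aeval Q ((C (-(p.coeff 0)⁻¹) * p.divX).map (algebraMap ℚ W.K)) z with hy
  have hyM : M y := ⟨_, rfl⟩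
  have hyz : Q y = z := by
    have h1 : aeval Q ((C (-(p.coeff 0)⁻¹) * p).map (algebraMap ℚ W.K)) z = 0 := by
      rw [Polynomial.map_mul, map_mul, Module.End.mul_apply, hpz, map_zero]
    have hc0 : p.coeff 0 ≠ 0 := by
      intro h0
      apply hcoeff
      rw [hp', Polynomial.coeff_map, h0, map_zero]
    have h2 : C (-(p.coeff 0)⁻¹) * p = X * (C (-(p.coeff 0)⁻¹) * p.divX) - 1 := by
      have h3 : C (-(p.coeff 0)⁻¹) * C (p.coeff 0) = -1 := by
        rw [← C_mul, neg_mul, inv_mul_cancel₀ hc0, C_neg, C_1]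
      calc C (-(p.coeff 0)⁻¹) * p = C (-(p.coeff 0)⁻¹) * (p.divX * X + C (p.coeff 0)) := by
            rw [Polynomial.divX_mul_X_add]
        _ = X * (C (-(p.coeff 0)⁻¹) * p.divX) + C (-(p.coeff 0)⁻¹) * C (p.coeff 0) := by ring
        _ = _ := by rw [h3, sub_eq_add_neg]
    have h4 : (X * (C (-(p.coeff 0)⁻¹) * p.divX) - 1 : ℚ[X]).map (algebraMap ℚ W.K) =
        X * (C (-(p.coeff 0)⁻¹) * p.divX).map (algebraMap ℚ W.K) - 1 := by
      rw [Polynomial.map_sub, Polynomial.map_mul, Polynomial.map_X, Polynomial.map_one]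
    rw [h2, h4, map_sub, LinearMap.sub_apply, map_mul, aeval_X, Module.End.mul_apply, map_one,
      Module.End.one_apply, sub_eq_zero] at h1
    exact h1
  have hy0 : y ≠ 0 := by
    intro h0
    apply hz0
    rw [← hyz, h0, map_zero]
  obtain ⟨q, hq, hq'⟩ := pos_of_poly hM (b ∘ₗ Q) hβrat hβsymm hβpos Q hQM
    (fun x y _ _ => by rw [LinearMap.comp_apply, LinearMap.comp_apply, hQs (Q x)]) p hMp hr hyM
    hy0
  refine ⟨q, hq, ?_⟩
  rw [LinearMap.comp_apply, hyz, hQs, hyz] at hq'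
  exact hq'

/-- The conjecture of Hodge type follows from the positivity of the form on the classes. -/
lemma hodge_of_pos {D : X.Cycles} {B : U.Cycles} {f : Module.End W.K (W.H X)}
    {g : Module.End W.K (W.H U)} (F : Pk W X D f) (hU : Lw W U B g)
    (hpos : ∀ (c : ℕ) (z : (X.prod U).Cycles), (X.prod U).IsCyc c z →
      DB W X U B g (W.cl _ z) → W.cl _ z ≠ 0 →
      ∃ q : ℚ, 0 < q ∧ bf W (X.prod U) (sumD ops D B) (extSum W f g) (W.cl _ z) (W.cl _ z) = q) :
    HodgeType W (X.prod U) (sumD ops D B) := by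
  intro j hj z hz hprim hz0
  have F' := F.lw.prod hU
  have hzA : AS W (X.prod U) (W.cl _ z) := AS.of ⟨z, hz, rfl⟩
  have hwt := wt_alg (W := W) hj ⟨z, hz, rfl⟩
  have h0 : extSum W f g (W.cl _ z) = 0 := by
    refine F'.sl2.f_eq_zero hwt ?_
    rw [← cl_divPow]
    exact hprim
  have hc : extSum W (wt (W.isInternal X) X.dim) (wt (W.isInternal U) U.dim)
      (W.cl _ z) = ((-(((X.prod U).dim - 2 * j : ℕ) : ℤ) : ℤ) : W.K) • W.cl _ z := by
    rw [← wt_prod, hwt]
    push_cast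
    rfl
  obtain ⟨q, hq, hq'⟩ := hpos j z hz (db_of_prim F.fr hU hzA h0 hc) hz0
  have h5 := F'.form_prim hj hz hprim
  have h5' := hq'.symm.trans h5
  have h6 := Rat.cast_injective (α := W.K) h5'
  have h7 : 0 < (-1 : ℚ) ^ j * ((((X.prod U).dim - 2 * j).factorial : ℚ)⁻¹ *
      (X.prod U).V.degCycle (ops.mul z (divPow ops (sumD ops D B)
        ((X.prod U).dim - 2 * j) z))) := by
    rw [← h6.symm.symm]
    exact h6 ▸ hq
  rw [mul_left_comm] at h7
  exact pos_of_mul_pos_right h7 (by positivity)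

/-- **The conjecture of Hodge type for `S × U` follows from the conjecture for the products of
test varieties with `U`.** -/
theorem hodge_of_tests {S : Polarized 𝒱} {ι : Type*} [Finite ι] {T : ι → Polarized 𝒱}
    {U : Polarized 𝒱} (hSD : S.X.IsCyc 1 S.D) (hSL : HardLefschetz W S.X S.D)
    (hSB : LefschetzB W S.X S.D) (hTD : ∀ i, (T i).X.IsCyc 1 (T i).D)
    (hTL : ∀ i, HardLefschetz W (T i).X (T i).D) (hTB : ∀ i, LefschetzB W (T i).X (T i).D)
    (hUD : U.X.IsCyc 1 U.D) (hUL : HardLefschetz W U.X U.D)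
    (hST : ∀ i, HodgeType W (S.prod ops (T i)).X (S.prod ops (T i)).D)
    (hTT : ∀ i j, HodgeType W ((T i).prod ops (T j)).X ((T i).prod ops (T j)).D)
    (hTU : ∀ i, HodgeType W ((T i).prod ops U).X ((T i).prod ops U).D)
    (hgen : ComesFrom W (fun i => (T i).X) S.X U.X) :
    HodgeType W (S.prod ops U).X (S.prod ops U).D := by
  obtain ⟨f, F⟩ := exists_pk hSD hSL hSB
  choose h G using fun i => exists_pk (hTD i) (hTL i) (hTB i)
  obtain ⟨g, hU, -⟩ := exists_lw hUD hUL
  exact hodge_of_pos F hU fun c z hz hdb h0 => pos_core F G hU hST hTT hTU hdb (hgen c z hz) h0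

end Pool.Agent.H24HS
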