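import Pool.Agent.TH132.A.Hodge

/-!
# Algebraic operators acting on the first factor of a product
-/

set_option autoImplicit false

open CategoryTheory AlgebraicGeometry

universe u v

namespace Pool.Agent.H24HS

open Pool.Agent.H914 Pool.Agent.H914.VarClass Pool.Agent.H914.VarClass.Obj
  Pool.Agent.H914.WeilCohomology Pool.Agent.H281R3.HT Pool.Agent.W552 Pool.Agent.TH132.A

variable {k : Type u} [Field k] {𝒱 : VarClass k} {ops : CycleOps 𝒱}
  {W : WeilCohomology.{u, v} ops} {X Y Z U : 𝒱.Obj}

/-- The operator `u ⊗ 1` from the cohomology of `X × U` to the cohomology of `Y × U`. -/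
noncomputable def lft (W : WeilCohomology.{u, v} ops) {X Y : 𝒱.Obj} (U : 𝒱.Obj)
    (u : W.H X →ₗ[W.K] W.H Y) : W.H (X.prod U) →ₗ[W.K] W.H (Y.prod U) :=
  (kappa W Y U).toLinearMap ∘ₗ TensorProduct.map u LinearMap.id ∘ₗ (kappa W X U).symm.toLinearMap

lemma lft_ext (u : W.H X →ₗ[W.K] W.H Y) (a : W.H X) (b : W.H U) :
    lft W U u (ext W a b) = ext W (u a) b := by
  rw [lft, LinearMap.comp_apply, LinearMap.comp_apply, LinearEquiv.coe_coe, LinearEquiv.coe_coe,
    ext, ← kappa_tmul, LinearEquiv.symm_apply_apply, TensorProduct.map_tmul, kappa_tmul]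
  rfl

lemma lft_congr {F G : W.H (X.prod U) →ₗ[W.K] W.H (Y.prod U)}
    (h : ∀ a b, F (ext W a b) = G (ext W a b)) : F = G := ext_kunneth_lin h

lemma lft_comp (u : W.H X →ₗ[W.K] W.H Y) (u' : W.H Y →ₗ[W.K] W.H Z) :
    lft W U (u' ∘ₗ u) = lft W U u' ∘ₗ lft W U u := by
  apply lft_congr
  intro a b
  rw [LinearMap.comp_apply, lft_ext, lft_ext, lft_ext]
  rfl

lemma lft_add (u u' : W.H X →ₗ[W.K] W.H Y) : lft W U (u + u') = lft W U u + lft W U u' := by
  apply lft_congr
  intro a b
  rw [LinearMap.add_apply, lft_ext, lft_ext, lft_ext, LinearMap.add_apply]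
  simp only [ext, map_add, add_mul]

lemma lft_smul (c : W.K) (u : W.H X →ₗ[W.K] W.H Y) : lft W U (c • u) = c • lft W U u := by
  apply lft_congr
  intro a b
  rw [LinearMap.smul_apply, lft_ext, lft_ext, LinearMap.smul_apply]
  simp only [ext, map_smul, smul_mul_assoc]

lemma lft_zero : lft W U (0 : W.H X →ₗ[W.K] W.H Y) = 0 := by
  have := lft_smul (U := U) (0 : W.K) (0 : W.H X →ₗ[W.K] W.H Y)
  rwa [zero_smul, zero_smul] at this

lemma lft_sum {ι : Type*} (s : Finset ι) (u : ι → (W.H X →ₗ[W.K] W.H Y)) :
    lft W U (∑ i ∈ s, u i) = ∑ i ∈ s, lft W U (u i) := by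
  classical
  induction s using Finset.induction_on with
  | empty => rw [Finset.sum_empty, Finset.sum_empty, lft_zero]
  | insert a s ha ih => rw [Finset.sum_insert ha, Finset.sum_insert ha, lft_add, ih]

lemma lft_extL (u : Module.End W.K (W.H X)) : lft W U u = extL W X U u := by
  apply lft_congr
  intro a b
  rw [lft_ext, extL_apply]
  exact (extOp_tmul u 1 a b).symm

lemma lft_one : lft W U (1 : Module.End W.K (W.H X)) = 1 := by
  rw [lft_extL, map_one]

lemma lft_extR (u : W.H X →ₗ[W.K] W.H Y) (T : Module.End W.K (W.H U)) (z : W.H (X.prod U)) :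
    extR W Y U T (lft W U u z) = lft W U u (extR W X U T z) := by
  have h : extR W Y U T ∘ₗ lft W U u = lft W U u ∘ₗ extR W X U T := by
    apply lft_congr
    intro a b
    have h1 : extR W X U T (ext W a b) = ext W a (T b) := extOp_tmul 1 T a b
    have h2 : extR W Y U T (ext W (u a) b) = ext W (u a) (T b) := extOp_tmul 1 T (u a) b
    rw [LinearMap.comp_apply, LinearMap.comp_apply, lft_ext, h1, h2, lft_ext]
  exact congrArg (fun F => F z) h

/-- The operator `u ⊗ 1` for a correspondence `u` in terms of push-forward and pull-back. -/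
lemma lft_corr (c : W.H (X.prod Y)) (z : W.H (X.prod U)) :
    lft W U (W.corr c) z =
      W.push (p23 X Y U) (W.map (p12 X Y U) c * W.map (p13 X Y U) z) := by
  refine W.kunneth_induction (p := fun z => lft W U (W.corr c) z =
      W.push (p23 X Y U) (W.map (p12 X Y U) c * W.map (p13 X Y U) z)) ?_ ?_ z
  · intro a b ha hb
    rw [map_add, ha, hb, map_add, mul_add, map_add]
  · intro i j a _ b _
    have h1 : lft W U (W.corr c) (W.map (fst X U) a * W.map (snd X U) b) =
        W.map (fst Y U) (W.corr c a) * W.map (snd Y U) b := lft_ext (W.corr c) a b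
    have e1 : p12 X Y U ≫ fst X Y = fst X (Y.prod U) := Obj.lift_fst _ _
    have e2 : p13 X Y U ≫ fst X U = fst X (Y.prod U) := Obj.lift_fst _ _
    have e3 : p13 X Y U ≫ snd X U = p23 X Y U ≫ snd Y U := Obj.lift_snd _ _
    rw [h1, corr_apply, W.base_change, map_mul (W.map (p12 X Y U)), map_mul (W.map (p13 X Y U)),
      ← W.map_comp (p12 X Y U), ← W.map_comp (p13 X Y U), ← W.map_comp (p13 X Y U), e1, e2, e3,
      W.map_comp (p23 X Y U), ← W.push_mul, mul_assoc]

/-- Algebraic operators preserve sums of algebraic classes. -/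
lemma lft_AS {u : W.H X →ₗ[W.K] W.H Y} (hu : AOp W X Y u) {z : W.H (X.prod U)}
    (hz : AS W (X.prod U) z) : AS W (Y.prod U) (lft W U u z) := by
  obtain ⟨c, hc, rfl⟩ := hu
  rw [lft_corr]
  exact ((hc.map _).mul (hz.map _)).push _

/-- The operator given by the transpose of a class, and operators on the first factor. -/
lemma corr_swap_lft (u : W.H X →ₗ[W.K] W.H Y) (z : W.H (X.prod U)) :
    W.corr (W.map (swap U Y) (lft W U u z)) = u ∘ₗ W.corr (W.map (swap U X) z) := by
  refine W.kunneth_induction (p := fun z => W.corr (W.map (swap U Y) (lft W U u z)) =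
    u ∘ₗ W.corr (W.map (swap U X) z)) ?_ ?_ z
  · intro a b ha hb
    rw [map_add, map_add, corr_add, ha, hb, map_add, corr_add, LinearMap.comp_add]
  · intro i j a ha b hb
    have h1 : lft W U u (W.map (fst X U) a * W.map (snd X U) b) =
        W.map (fst Y U) (u a) * W.map (snd Y U) b := lft_ext u a b
    rw [h1, corr_swap_tmul ha hb]
    -- the same formula for a class which is not homogeneous
    have h2 : ∀ a' : W.H Y, W.corr (W.map (swap U Y) (W.map (fst Y U) a' * W.map (snd Y U) b)) =
        (W.tr U ∘ₗ LinearMap.mulLeft W.K b).smulRight a' := by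
      intro a'
      refine gr_induction (W.isInternal Y) (p := fun a' => W.corr (W.map (swap U Y)
        (W.map (fst Y U) a' * W.map (snd Y U) b)) =
        (W.tr U ∘ₗ LinearMap.mulLeft W.K b).smulRight a') ?_ ?_ a'
      · intro l a' ha'
        exact corr_swap_tmul ha' hb
      · intro x y hx hy
        rw [map_add, add_mul, map_add, corr_add, hx, hy]
        apply LinearMap.ext
        intro t
        simp only [LinearMap.add_apply, LinearMap.smulRight_apply, smul_add]
    rw [h2]
    apply LinearMap.ext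
    intro t
    simp only [LinearMap.comp_apply, LinearMap.smulRight_apply, map_smul]

/-- The forms on the products and operators on the first factor. -/
lemma bf_lft {D : X.Cycles} {E : Y.Cycles} {B : U.Cycles} {f : Module.End W.K (W.H X)}
    {f' : Module.End W.K (W.H Y)} {g : Module.End W.K (W.H U)} (F : Lw W X D f)
    (F' : Lw W Y E f') (G : Lw W U B g) {u : W.H X →ₗ[W.K] W.H Y} {u' : W.H Y →ₗ[W.K] W.H X}
    (h : ∀ a b, bf W Y E f' (u a) b = bf W X D f a (u' b)) (z : W.H (X.prod U))
    (z' : W.H (Y.prod U)) :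
    bf W (Y.prod U) (ops.pull (fst Y U) E + ops.pull (snd Y U) B) (extSum W f' g)
        (lft W U u z) z' =
      bf W (X.prod U) (ops.pull (fst X U) D + ops.pull (snd X U) B) (extSum W f g) z
        (lft W U u' z') := by
  refine W.kunneth_induction (p := fun z => bf W (Y.prod U) (ops.pull (fst Y U) E +
    ops.pull (snd Y U) B) (extSum W f' g) (lft W U u z) z' =
      bf W (X.prod U) (ops.pull (fst X U) D + ops.pull (snd X U) B) (extSum W f g) z
        (lft W U u' z')) ?_ ?_ z
  · intro a b ha hb
    rw [map_add, map_add, LinearMap.add_apply, ha, hb, map_add, LinearMap.add_apply]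
  · intro i j a _ b _
    refine W.kunneth_induction (p := fun z' => bf W (Y.prod U) (ops.pull (fst Y U) E +
      ops.pull (snd Y U) B) (extSum W f' g)
        (lft W U u (W.map (fst X U) a * W.map (snd X U) b)) z' =
      bf W (X.prod U) (ops.pull (fst X U) D + ops.pull (snd X U) B) (extSum W f g)
        (W.map (fst X U) a * W.map (snd X U) b) (lft W U u' z')) ?_ ?_ z'
    · intro x y hx hy
      rw [map_add, hx, hy, map_add, map_add]
    · intro i' j' a' _ b' _
      have h1 : lft W U u (W.map (fst X U) a * W.map (snd X U) b) = ext W (u a) b :=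
        lft_ext u a b
      have h2 : lft W U u' (W.map (fst Y U) a' * W.map (snd Y U) b') = ext W (u' a') b' :=
        lft_ext u' a' b'
      rw [h1, h2]
      have h3 := F'.bf_ext G (u a) a' b b'
      have h4 := F.bf_ext G a (u' a') b b'
      exact h3.trans ((congrArg (· * bf W U B g b b') (h a a')).trans h4.symm)

end Pool.Agent.H24HS
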