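import Pool.Agent.H24HS.Ops

/-!
# Polarized varieties with the Lefschetz standard conjecture, and adjoint operators
-/

set_option autoImplicit false

open CategoryTheory AlgebraicGeometry

universe u v

namespace Pool.Agent.H24HS

open Pool.Agent.H914 Pool.Agent.H914.VarClass Pool.Agent.H914.VarClass.Obj
  Pool.Agent.H914.WeilCohomology Pool.Agent.H281R3.HT Pool.Agent.W552 Pool.Agent.TH132.A

variable {k : Type u} [Field k] {𝒱 : VarClass k} {ops : CycleOps 𝒱}
  {W : WeilCohomology.{u, v} ops} {X Y Z U : 𝒱.Obj}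

/-- Algebraic correspondences preserve the parity of the degree. -/
lemma par_corr' {x : W.H (X.prod Y)} (hx : AS W _ x) :
    (par (W.isInternal Y) : Module.End W.K (W.H Y)) ∘ₗ W.corr x =
      W.corr x ∘ₗ (par (W.isInternal X) : Module.End W.K (W.H X)) := by
  refine AS.ind (p := fun x => (par (W.isInternal Y) : Module.End W.K (W.H Y)) ∘ₗ W.corr x =
      W.corr x ∘ₗ (par (W.isInternal X) : Module.End W.K (W.H X))) ?_ ?_ hx
  · intro j x hx
    apply gr_ext (W.isInternal X)
    intro i z hz
    have h1 := W.push_mem (snd X Y) (W.mul_mem (alg_gr hx) (W.map_mem (fst X Y) hz))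
    rw [LinearMap.comp_apply, LinearMap.comp_apply, par, par, scal_apply _ _ hz, map_smul]
    rw [← corr_apply] at h1
    have e : ((2 * j + i : ℕ) : ℤ) + 2 * ((Y.dim : ℤ) - (X.prod Y).dim) =
        (i : ℤ) + 2 * ((j : ℤ) - X.dim) := by
      rw [dim_prod]; push_cast; ring
    rw [e] at h1
    by_cases hm : ∃ m : ℕ, (m : ℤ) = (i : ℤ) + 2 * ((j : ℤ) - X.dim)
    · obtain ⟨m, hm⟩ := hm
      rw [← hm, grZ_natCast] at h1
      rw [scal_apply _ _ h1]
      congr 1
      rcases Nat.even_or_odd i with h | h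
      · have h3 : Even m := by
          obtain ⟨r, hr⟩ := h
          have : (m : ℤ) = 2 * (r + ((j : ℤ) - X.dim)) := by rw [hm, hr]; push_cast; ring
          have : Even (m : ℤ) := by rw [this]; exact even_two_mul _
          exact_mod_cast this
        rw [h.neg_one_pow, h3.neg_one_pow]
      · have h3 : Odd m := by
          obtain ⟨r, hr⟩ := h
          have : (m : ℤ) = 2 * (r + ((j : ℤ) - X.dim)) + 1 := by rw [hm, hr]; push_cast; ring
          have : Odd (m : ℤ) := by rw [this]; exact odd_two_mul_add_one _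
          exact_mod_cast this
        rw [h.neg_one_pow, h3.neg_one_pow]
    · push Not at hm
      by_cases hneg : (i : ℤ) + 2 * ((j : ℤ) - X.dim) < 0
      · rw [grZ_of_neg hneg] at h1
        rw [(Submodule.mem_bot _).1 h1]
        simp
      · exact absurd (Int.toNat_of_nonneg (by omega)) (hm _)
  · intro a c ha hc
    rw [corr_add, LinearMap.comp_add, LinearMap.add_comp, ha, hc]

/-- Hard Lefschetz follows from the existence of the lowering operator. -/
lemma hl_of_lw {D : X.Cycles} {f : Module.End W.K (W.H X)} (F : Lw W X D f) :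
    HardLefschetz W X D := by
  refine hardLefschetz_of_inj F.hD fun i hi a ha h0 => ?_
  by_contra hne
  have hwt : wt (W.isInternal X) X.dim a = -((X.dim - i : ℕ) : W.K) • a := by
    rw [Fr.wt_gr ha]
    congr 1
    rw [Nat.cast_sub hi]
    ring
  have hf : f a = 0 := by
    refine F.sl2.f_eq_zero hwt ?_
    rw [pow_succ', Module.End.mul_apply, h0, map_zero]
  exact Sl2.e_pow_ne F.sl2 hf hwt hne le_rfl h0

/-- The lowering operator is homogeneous. -/
lemma isHom_of_lw {D : X.Cycles} {f : Module.End W.K (W.H X)} (F : Lw W X D f) :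
    IsHom (W.gr X) (-2) f := by
  intro i a ha
  by_cases hi : 0 ≤ i
  · obtain ⟨n, rfl⟩ := Int.eq_ofNat_of_zero_le hi
    rw [grZ_natCast] at ha
    have h1 := F.f_gr ha
    by_cases hn : n < 2
    · rw [h1.2 hn]; exact Submodule.zero_mem _
    · have h2 := h1.1 (n - 2) (by omega)
      rw [show (n : ℤ) + -2 = ((n - 2 : ℕ) : ℤ) by omega, grZ_natCast]
      exact h2
  · rw [grZ_of_neg (by omega)] at ha
    rw [(Submodule.mem_bot _).1 ha, map_zero]
    exact Submodule.zero_mem _

/-- The form is symmetric up to the parity. -/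
lemma bf_par {D : X.Cycles} {f : Module.End W.K (W.H X)} (F : Lw W X D f) (x y : W.H X) :
    bf W X D f x y = bf W X D f (par (W.isInternal X) y) x := by
  have t : LefStr (W.isInternal X) X.dim (LinearMap.mulLeft W.K (W.cl X D)) f :=
    ⟨mulLeft_isHom F.hD, W_hbd, hl_of_lw F, F.sl2⟩
  refine gr_induction (W.isInternal X) (p := fun y => bf W X D f x y =
    bf W X D f (par (W.isInternal X) y) x) ?_ ?_ y
  swap
  · intro a b ha hb
    rw [map_add, ha, hb, map_add, map_add, LinearMap.add_apply]
  intro j y hy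
  refine gr_induction (W.isInternal X) (p := fun x => bf W X D f x y =
    bf W X D f (par (W.isInternal X) y) x) ?_ ?_ x
  swap
  · intro a b ha hb
    rw [map_add, LinearMap.add_apply, ha, hb, map_add]
  intro i x hx
  have h1 := t.form_symm (B := bil W X) (fun a b => by
        rw [bil_apply, bil_apply, LinearMap.mulLeft_apply, LinearMap.mulLeft_apply,
          W.even_comm (p := 1) (W.cl_mem F.hD) a, mul_assoc])
        (fun i j a ha b hb hij => W.tr_eq_zero (W.mul_mem ha hb) hij)
        (fun i j a ha b hb => by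
          rw [bil_apply, bil_apply, W.comm ha hb, map_smul, smul_eq_mul])
        hy hx
  rw [par, scal_apply _ _ hy, map_smul, LinearMap.smul_apply, smul_eq_mul]
  exact h1

/-- A polarized variety with algebraic Lefschetz operators. -/
structure Pk (W : WeilCohomology.{u, v} ops) (X : 𝒱.Obj) (D : X.Cycles)
    (f : Module.End W.K (W.H X)) : Prop where
  fr : Fr W X D f
  star : AOp W X X (st W X D f)
  st_st : st W X D f * st W X D f = 1

lemma exists_pk {D : X.Cycles} (hD : X.IsCyc 1 D) (hHL : HardLefschetz W X D)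
    (hB : LefschetzB W X D) : ∃ f, Pk W X D f := by
  obtain ⟨f, F, t⟩ := exists_fr hD hHL hB
  obtain ⟨Φ, hΦ, hLam⟩ := lefschetzB_iff_rop.1 hB
  have hp : ∀ i, AOp W X X (proj (W.isInternal X) i) := fun i =>
    AOp.of_rop (rop_opAlg.proj_mem (W.isInternal X) W_hbd (rop_mulLeft hD) hHL hΦ hLam i)
  have hs : AOp W X X (scal (W.isInternal X) (fun i => (sg i : W.K))) := by
    rw [scal_eq_sum (W.isInternal X) (N := 2 * X.dim + 1) W_hbd]
    apply AOp.ratSub.sum
    intro i _
    have := AOp.smul (sg i : ℚ) (hp i)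
    simpa using this
  exact ⟨f, F, F.wop_aop.mul hs, t.star_star⟩

namespace Pk

variable {D : X.Cycles} {f : Module.End W.K (W.H X)} (F : Pk W X D f)

include F

lemma lw : Lw W X D f := ⟨F.fr.hD, F.fr.sl2⟩

/-- The adjoint of an algebraic operator. -/
lemma exists_adj {E : Y.Cycles} {g : Module.End W.K (W.H Y)} (G : Pk W Y E g)
    {u : W.H X →ₗ[W.K] W.H Y} (hu : AOp W X Y u) :
    ∃ u', AOp W Y X u' ∧ (∀ a b, bf W Y E g (u a) b = bf W X D f a (u' b)) ∧
      ∀ a b, bf W X D f (u' b) a = bf W Y E g b (u a) := by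
  obtain ⟨x, hx, rfl⟩ := hu
  have hu' : AOp W Y X (W.corr (W.map (swap Y X) x)) := ⟨_, hx.map _, rfl⟩
  refine ⟨st W X D f ∘ₗ W.corr (W.map (swap Y X) x) ∘ₗ st W Y E g,
    F.star.comp (hu'.comp G.star), ?_, ?_⟩
  · intro p q
    rw [bf_apply, hx.tr_corr, bf_apply]
    congr 2
    simp only [LinearMap.comp_apply]
    rw [← Module.End.mul_apply (st W X D f), F.st_st, Module.End.one_apply]
  · intro p q
    set u' := st W X D f ∘ₗ W.corr (W.map (swap Y X) x) ∘ₗ st W Y E g with hu'
    have h1 : ∀ a b, bf W Y E g (W.corr x a) b = bf W X D f a (u' b) := by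
      intro a b
      rw [bf_apply, hx.tr_corr, bf_apply]
      congr 2
      simp only [hu', LinearMap.comp_apply]
      rw [← Module.End.mul_apply (st W X D f), F.st_st, Module.End.one_apply]
    have h2 := congrArg (fun G => G p) (par_corr' hx)
    simp only [LinearMap.comp_apply] at h2
    rw [bf_par F.lw, ← h1, bf_par G.lw q, h2]

end Pk

end Pool.Agent.H24HS
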