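import Pool.Agent.W552.RatBasis

/-!
# Positive operators on rational structures and polynomials without roots `≤ 0`
-/

set_option autoImplicit false

open Polynomial Matrix

namespace Pool.Agent.H24HS

open Pool.Agent.W552

section Mat

variable {N : ℕ} {w : Fin N → ℚ} {A : Matrix (Fin N) (Fin N) ℚ}

/-- The form `x ↦ ∑ w k * x k * (A x) k`. -/
noncomputable def qf (w : Fin N → ℚ) (A : Matrix (Fin N) (Fin N) ℚ) (x : Fin N → ℝ) : ℝ :=
  ∑ k, (w k : ℝ) * x k * (A.map (algebraMap ℚ ℝ) *ᵥ x) k

lemma qf_cast (x : Fin N → ℚ) : qf w A (fun k => (x k : ℝ)) =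
    ((∑ k, w k * x k * (A *ᵥ x) k : ℚ) : ℝ) := by
  rw [qf]
  push_cast
  refine Finset.sum_congr rfl fun k _ => ?_
  congr 1
  simp [Matrix.mulVec, dotProduct]

/-- The matrix `w k * A k l`. -/
noncomputable def wm (w : Fin N → ℚ) (A : Matrix (Fin N) (Fin N) ℚ) : Matrix (Fin N) (Fin N) ℝ :=
  Matrix.of fun k l => (w k : ℝ) * (A k l : ℝ)

lemma wm_qf (x : Fin N → ℝ) : star x ⬝ᵥ (wm w A *ᵥ x) = qf w A x := by
  rw [qf, dotProduct]
  refine Finset.sum_congr rfl fun k _ => ?_
  rw [Matrix.mulVec, Matrix.mulVec, dotProduct, dotProduct, Finset.mul_sum, Finset.mul_sum]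
  refine Finset.sum_congr rfl fun l _ => ?_
  simp [wm]
  ring

lemma wm_herm (hs : ∀ k l, w k * A k l = w l * A l k) : (wm w A).IsHermitian := by
  ext k l
  rw [Matrix.conjTranspose_apply]
  simp only [wm, Matrix.of_apply, star_trivial]
  exact_mod_cast hs l k

/-- **A matrix which is positive for rational vectors is positive for real vectors.** -/
lemma wm_posDef (hs : ∀ k l, w k * A k l = w l * A l k)
    (hpos : ∀ x : Fin N → ℚ, x ≠ 0 → 0 < ∑ k, w k * x k * (A *ᵥ x) k) : (wm w A).PosDef := by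
  have h0 : ∀ x : Fin N → ℝ, 0 ≤ qf w A x := by
    have hd : DenseRange (fun (x : Fin N → ℚ) (k : Fin N) => (x k : ℝ)) :=
      DenseRange.piMap (fun _ => Rat.denseRange_cast)
    have hc : Continuous (qf w A) := by
      unfold qf
      refine continuous_finsetSum _ fun k _ => ?_
      refine (continuous_const.mul (continuous_apply k)).mul ?_
      exact (continuous_apply k).comp (Continuous.matrix_mulVec continuous_const continuous_id)
    intro x
    refine hd.induction_on (p := fun x => 0 ≤ qf w A x) x (isClosed_le continuous_const hc) ?_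
    intro y
    rw [qf_cast]
    by_cases hy : y = 0
    · subst hy
      simp
    · exact_mod_cast (hpos y hy).le
  have hps : (wm w A).PosSemidef := by
    refine Matrix.PosSemidef.of_dotProduct_mulVec_nonneg (wm_herm hs) fun x => ?_
    rw [wm_qf]
    exact h0 x
  refine (Matrix.PosSemidef.posDef_iff_isUnit hps).2 ?_
  rw [Matrix.isUnit_iff_isUnit_det, isUnit_iff_ne_zero]
  set B : Matrix (Fin N) (Fin N) ℚ := Matrix.of fun k l => w k * A k l with hB
  have h1 : wm w A = B.map (algebraMap ℚ ℝ) := by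
    ext k l
    simp [wm, hB]
  rw [h1]
  have h2 : (B.map (algebraMap ℚ ℝ)).det = algebraMap ℚ ℝ B.det := by
    rw [← RingHom.mapMatrix_apply, RingHom.map_det]
  rw [h2]
  intro h3
  have h4 : B.det = 0 := by
    have := (map_eq_zero (algebraMap ℚ ℝ)).1 h3
    exact this
  obtain ⟨x, hx, hx0⟩ := Matrix.exists_mulVec_eq_zero_iff.2 h4
  have h5 := hpos x hx
  have h6 : ∑ k, w k * x k * (A *ᵥ x) k = ∑ k, x k * (B *ᵥ x) k := by
    refine Finset.sum_congr rfl fun k _ => ?_
    rw [Matrix.mulVec, Matrix.mulVec, dotProduct, dotProduct, Finset.mul_sum, Finset.mul_sum]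
    refine Finset.sum_congr rfl fun l _ => ?_
    simp [hB]
    ring
  rw [h6, hx0] at h5
  simp at h5

/-- **The characteristic polynomial of a positive matrix has no root `≤ 0`.** -/
lemma charpoly_no_root (hw : ∀ k, 0 < w k) (hs : ∀ k l, w k * A k l = w l * A l k)
    (hpos : ∀ x : Fin N → ℚ, x ≠ 0 → 0 < ∑ k, w k * x k * (A *ᵥ x) k) (r : ℝ) (hr : r ≤ 0) :
    aeval r A.charpoly ≠ 0 := by
  intro h0
  set A' := A.map (algebraMap ℚ ℝ) with hA'
  have h1 : A'.charpoly = A.charpoly.map (algebraMap ℚ ℝ) := by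
    rw [hA', Matrix.charpoly_map]
  have h2 : (Matrix.scalar (Fin N) r - A').det = 0 := by
    rw [← Matrix.eval_charpoly, h1, Polynomial.eval_map, ← Polynomial.aeval_def]
    exact h0
  obtain ⟨x, hx, hx0⟩ := Matrix.exists_mulVec_eq_zero_iff.2 h2
  have h3 : A' *ᵥ x = r • x := by
    rw [Matrix.sub_mulVec, sub_eq_zero] at hx0
    rw [← hx0]
    ext k
    simp [Matrix.scalar_apply, Matrix.mulVec_diagonal]
  have h4 := (wm_posDef hs hpos).dotProduct_mulVec_pos hx
  rw [wm_qf, qf, h3] at h4
  have h5 : ∑ k, (w k : ℝ) * x k * (r • x) k = r * ∑ k, (w k : ℝ) * (x k * x k) := by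
    rw [Finset.mul_sum]
    refine Finset.sum_congr rfl fun k _ => ?_
    rw [Pi.smul_apply, smul_eq_mul]
    ring
  rw [h5] at h4
  have h6 : 0 ≤ ∑ k, (w k : ℝ) * (x k * x k) := Finset.sum_nonneg fun k _ =>
    mul_nonneg (by exact_mod_cast (hw k).le) (mul_self_nonneg _)
  nlinarith

/-- **A symmetric matrix annihilated by a polynomial without roots `≤ 0` is positive.** -/
lemma pos_of_aeval (hw : ∀ k, 0 < w k) (hs : ∀ k l, w k * A k l = w l * A l k) (p : ℚ[X])
    (hp : aeval A p = 0) (hr : ∀ r : ℝ, r ≤ 0 → aeval r p ≠ 0) (x : Fin N → ℚ) (hx : x ≠ 0) :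
    0 < ∑ k, w k * x k * (A *ᵥ x) k := by
  set s : Fin N → ℝ := fun k => Real.sqrt (w k) with hsdef
  have hs0 : ∀ k, 0 < s k := fun k => Real.sqrt_pos.2 (by exact_mod_cast hw k)
  have hss : ∀ k, s k * s k = w k := fun k => Real.mul_self_sqrt (by exact_mod_cast (hw k).le)
  set D : Matrix (Fin N) (Fin N) ℝ := Matrix.diagonal s with hD
  set D' : Matrix (Fin N) (Fin N) ℝ := Matrix.diagonal (fun k => (s k)⁻¹) with hD'
  have hDD : D * D' = 1 := by
    rw [hD, hD', Matrix.diagonal_mul_diagonal, ← Matrix.diagonal_one]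
    congr 1
    funext k
    exact mul_inv_cancel₀ (hs0 k).ne'
  have hDD' : D' * D = 1 := by
    rw [hD, hD', Matrix.diagonal_mul_diagonal, ← Matrix.diagonal_one]
    congr 1
    funext k
    exact inv_mul_cancel₀ (hs0 k).ne'
  set A' := A.map (algebraMap ℚ ℝ) with hA'
  set S : Matrix (Fin N) (Fin N) ℝ := D * A' * D' with hS
  have hSkl : ∀ k l, S k l = s k * (A k l : ℝ) * (s l)⁻¹ := by
    intro k l
    rw [hS, hD, hD', Matrix.mul_diagonal, Matrix.diagonal_mul]
    rfl
  have hSh : S.IsHermitian := by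
    ext k l
    rw [Matrix.conjTranspose_apply, star_trivial, hSkl, hSkl]
    have h1 : (w k : ℝ) * (A k l : ℝ) = w l * A l k := by exact_mod_cast hs k l
    rw [← hss, ← hss] at h1
    have h2 := (hs0 k).ne'
    have h3 := (hs0 l).ne'
    field_simp
    linarith
  have hpow : ∀ n : ℕ, S ^ n = D * A' ^ n * D' := by
    intro n
    induction n with
    | zero => rw [pow_zero, pow_zero, mul_one, hDD]
    | succ n ih =>
      rw [pow_succ, ih, hS, pow_succ]
      calc D * A' ^ n * D' * (D * A' * D') = D * A' ^ n * (D' * D) * A' * D' := by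
            simp only [mul_assoc]
        _ = _ := by rw [hDD', mul_one]; simp only [mul_assoc]
  have hpS : ∀ q : ℚ[X], aeval S q = D * (aeval A q).map (algebraMap ℚ ℝ) * D' := by
    intro q
    induction q using Polynomial.induction_on' with
    | add p q hp hq =>
      rw [map_add, map_add, hp, hq, Matrix.map_add _ (map_add _), mul_add, add_mul]
    | monomial n a =>
      rw [aeval_monomial, aeval_monomial, hpow, hA']
      have h1 : (A.map (algebraMap ℚ ℝ)) ^ n = (A ^ n).map (algebraMap ℚ ℝ) := by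
        rw [← RingHom.mapMatrix_apply, ← map_pow, RingHom.mapMatrix_apply]
      rw [h1]
      ext k l
      rw [Algebra.algebraMap_eq_smul_one, Algebra.algebraMap_eq_smul_one, smul_mul_assoc, one_mul,
        smul_mul_assoc, one_mul]
      rw [Matrix.smul_apply, hD, hD', Matrix.mul_diagonal, Matrix.diagonal_mul,
        Matrix.mul_diagonal, Matrix.diagonal_mul, Matrix.map_apply, Matrix.map_apply,
        Matrix.smul_apply, smul_eq_mul, map_mul, Algebra.smul_def]
      ring
  have hpS0 : aeval S p = 0 := by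
    rw [hpS, hp]
    have : (0 : Matrix (Fin N) (Fin N) ℚ).map (algebraMap ℚ ℝ) = 0 := by
      ext; simp
    rw [this, mul_zero, zero_mul]
  have hSp : S.PosDef := by
    rw [hSh.posDef_iff_eigenvalues_pos]
    intro i
    by_contra hi
    refine hr (hSh.eigenvalues i) (not_lt.1 hi) ?_
    set v : Fin N → ℝ := (hSh.eigenvectorBasis i).ofLp with hv
    have hv0 : v ≠ 0 := by
      intro h0
      have h1 := hSh.eigenvectorBasis.orthonormal.ne_zero i
      apply h1
      ext k
      exact congrFun h0 k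
    have hSv : S *ᵥ v = hSh.eigenvalues i • v := hSh.mulVec_eigenvectorBasis i
    have hSvn : ∀ n : ℕ, (S ^ n) *ᵥ v = (hSh.eigenvalues i) ^ n • v := by
      intro n
      induction n with
      | zero => rw [pow_zero, pow_zero, one_mulVec, one_smul]
      | succ n ih =>
        rw [pow_succ, ← mulVec_mulVec, hSv, mulVec_smul, ih, smul_smul, pow_succ, mul_comm]
    have key : ∀ q : ℚ[X], (aeval S q) *ᵥ v = (aeval (hSh.eigenvalues i) q) • v := by
      intro q
      induction q using Polynomial.induction_on' with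
      | add p q hp hq => rw [map_add, map_add, add_mulVec, hp, hq, add_smul]
      | monomial n a =>
        rw [aeval_monomial, aeval_monomial, Algebra.algebraMap_eq_smul_one, smul_mul_assoc,
          one_mul, Matrix.smul_mulVec, hSvn, mul_smul, Algebra.smul_def]
        rfl
    have h1 := key p
    rw [hpS0, zero_mulVec] at h1
    exact (smul_eq_zero.1 h1.symm).resolve_right hv0
  set y : Fin N → ℝ := fun k => s k * (x k : ℝ) with hy
  have hy0 : y ≠ 0 := by
    intro h0
    apply hx
    funext k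
    have h1 := congrFun h0 k
    rw [hy] at h1
    have h2 : (x k : ℝ) = 0 := (mul_eq_zero.1 h1).resolve_left (hs0 k).ne'
    exact_mod_cast h2
  have h1 := hSp.dotProduct_mulVec_pos hy0
  have h2 : star y ⬝ᵥ (S *ᵥ y) = ((∑ k, w k * x k * (A *ᵥ x) k : ℚ) : ℝ) := by
    rw [← qf_cast, qf, dotProduct]
    refine Finset.sum_congr rfl fun k _ => ?_
    rw [Matrix.mulVec, Matrix.mulVec, dotProduct, dotProduct, Finset.mul_sum, Finset.mul_sum]
    refine Finset.sum_congr rfl fun l _ => ?_
    rw [Pi.star_apply, star_trivial, hSkl, hy, ← hss k]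
    have h3 := (hs0 l).ne'
    simp only [Matrix.map_apply, eq_ratCast]
    field_simp
  rw [h2] at h1
  exact_mod_cast h1

end Mat

end Pool.Agent.H24HS
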