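import Pool.Agent.H24HS.Sup

/-!
# MP_361a6f_ag: the conjecture of Hodge type for the products of supersingular varieties and an
arbitrary variety

Let `S a`, for `a` in an arbitrary set, be smooth projective varieties with (ample) divisors, and let
`E = S e` be one of them, with some cohomology of odd degree. Suppose that all classes of even degree
on the products `S a × E` are linear combinations, with coefficients in the coefficient field of the
cohomology, of classes of algebraic cycles. The main examples in characteristic `p` are the
supersingular curves, the surfaces with `ρ = b₂` and supersingular Albanese variety, and the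
supersingular abelian varieties of all dimensions, with `E` a supersingular elliptic curve.

Then for **every** smooth projective variety `U` with a divisor `B` satisfying the hard Lefschetz
theorem, the standard conjecture of Hodge type holds for **all** varieties `Y` which are covered by
`Q × U`, where `Q` is **any** product of the members of the family, with any number of factors, **if
and only if** it holds for `E × U` and for the products `S a × E`.

For example, if the `S a` are supersingular curves and surfaces and `U` is any surface, the
conditions on the right hand side only concern varieties of dimension at most three.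

Nothing is assumed on the algebraic cycles on `U`.
-/

set_option autoImplicit false

open CategoryTheory AlgebraicGeometry

universe u v w

namespace Pool.Agent.Results.MP_361a6f_ag.SupersingularFactors

open Pool.Agent.H914 VarClass Obj WeilCohomology Pool.Agent.H281R3.HT Pool.Agent.H24HS

/-- **The standard conjecture of Hodge type for the products of supersingular varieties and an
arbitrary variety.** -/
theorem result {k : Type u} [Field k] {𝒱 : VarClass k} {ops : CycleOps 𝒱}
    (W : WeilCohomology.{u, v} ops) {ι : Type w} (S : ι → Polarized 𝒱) (e : ι)
    (hD : ∀ a, (S a).X.IsCyc 1 (S a).D) (hHL : ∀ a, HardLefschetz W (S a).X (S a).D)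
    (hp : 0 < (S e).X.V.degCycle (divPow ops (S e).D (S e).X.dim (S e).X.V.fundCycle))
    (hodd : ∃ i, Odd i ∧ W.gr (S e).X i ≠ ⊥)
    (hS : ∀ a, EvenAlgebraic W ((S a).X.prod (S e).X)) (U : Polarized 𝒱)
    (hUD : U.X.IsCyc 1 U.D) (hUL : HardLefschetz W U.X U.D)
    (hUp : 0 < U.X.V.degCycle (divPow ops U.D U.X.dim U.X.V.fundCycle)) :
    (∀ Q, IsProduct ops S Q → ∀ Y, Covers W (Q.prod ops U) Y → Y.X.IsCyc 1 Y.D →
      HodgeType W Y.X Y.D) ↔
    HodgeType W ((S e).prod ops U).X ((S e).prod ops U).D ∧
      ∀ a, HodgeType W ((S a).prod ops (S e)).X ((S a).prod ops (S e)).D :=
  hodge_supersingular hD hHL hp hodd hS hUD hUL hUp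

end Pool.Agent.Results.MP_361a6f_ag.SupersingularFactors
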